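import Pool.Agent.Helper86.Ac.Data

/-! Generated: the search over the sixth point. `Dm` follows the pattern of the five points other
than `m`, `pijk` is the pattern of the four points `i j k` and the sixth. -/

namespace Pool.Agent.Helper86.Ac

noncomputable section

open Pool.Agent.Helper86.Acute

/-- pattern with given states -/
def oL (s1 s2 s3 s4 : St) : Pay := O3.sel (O2.sel (O1.sel (O0.sel oT s1) s2) s3) s4

/-- conditional continuation -/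
def ch (b0 b1 : Nat) (r : Bool) : Bool := Bool.casesOn (Nat.ble b0 b1) true r

/-- terms with one pattern -/
def u012 (C : Ctx) (p : Pay) : Nat :=
  (Nat.add (dd C.q0.f01 p.f12) (Nat.add (dd C.q1.f01 p.f02) (dd C.q2.f01 p.f01)))

/-- terms with one pattern -/
def u013 (C : Ctx) (p : Pay) : Nat :=
  (Nat.add (dd C.q0.f02 p.f12) (Nat.add (dd C.q1.f02 p.f02) (dd C.q3.f01 p.f01)))

/-- terms with one pattern -/
def u023 (C : Ctx) (p : Pay) : Nat :=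
  (Nat.add (dd C.q0.f12 p.f12) (Nat.add (dd C.q2.f02 p.f02) (dd C.q3.f02 p.f01)))

/-- terms with one pattern -/
def u123 (C : Ctx) (p : Pay) : Nat :=
  (Nat.add (dd C.q1.f12 p.f12) (Nat.add (dd C.q2.f12 p.f02) (dd C.q3.f12 p.f01)))

/-- terms with one pattern -/
def u014 (C : Ctx) (p : Pay) : Nat :=
  (Nat.add (dd C.q0.f03 p.f12) (Nat.add (dd C.q1.f03 p.f02) (dd C.q4.f01 p.f01)))

/-- terms with one pattern -/
def u024 (C : Ctx) (p : Pay) : Nat :=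
  (Nat.add (dd C.q0.f13 p.f12) (Nat.add (dd C.q2.f03 p.f02) (dd C.q4.f02 p.f01)))

/-- terms with one pattern -/
def u124 (C : Ctx) (p : Pay) : Nat :=
  (Nat.add (dd C.q1.f13 p.f12) (Nat.add (dd C.q2.f13 p.f02) (dd C.q4.f12 p.f01)))

/-- terms with one pattern -/
def u034 (C : Ctx) (p : Pay) : Nat :=
  (Nat.add (dd C.q0.f23 p.f12) (Nat.add (dd C.q3.f03 p.f02) (dd C.q4.f03 p.f01)))

/-- terms with one pattern -/
def u134 (C : Ctx) (p : Pay) : Nat :=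
  (Nat.add (dd C.q1.f23 p.f12) (Nat.add (dd C.q3.f13 p.f02) (dd C.q4.f13 p.f01)))

/-- terms with one pattern -/
def u234 (C : Ctx) (p : Pay) : Nat :=
  (Nat.add (dd C.q2.f23 p.f12) (Nat.add (dd C.q3.f23 p.f02) (dd C.q4.f23 p.f01)))

/-- terms completed at level 5 -/
def m5 (C : Ctx) (p012 p013 p023 p123 : Pay) (x4 : X5) : Nat :=
  (Nat.add (Nat.add (u012 C p012) (u013 C p013)) (Nat.add (u023 C p023) (Nat.add (u123 C p123)
      (dd C.x.g4 x4.g4))))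

/-- terms completed at level 8 -/
def m8 (C : Ctx) (p013 p014 p023 p024 p123 p124 : Pay) (x3 x4 : X5) : Nat :=
  (Nat.add (Nat.add (Nat.add (u014 C p014) (u024 C p024)) (Nat.add (u124 C p124) (Nat.add (dd
      p013.f03 p024.f03) (dd p014.f03 p023.f03)))) (Nat.add (Nat.add (dd p013.f13 p124.f03)
      (Nat.add (dd p014.f13 p123.f03) (dd p023.f13 p124.f13))) (Nat.add (dd p024.f13 p123.f13)
      (Nat.add (dd x4.g3 x3.g3) (dd C.x.g3 x3.g4)))))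

/-- terms completed at level 9 -/
def m9 (C : Ctx) (p012 p013 p014 p023 p024 p034 p123 p124 p134 p234 : Pay) (x0 x1 x2 x3 x4 : X5)
    : Nat :=
  (Nat.add (Nat.add (Nat.add (Nat.add (u034 C p034) (Nat.add (u134 C p134) (u234 C p234)))
      (Nat.add (dd p012.f03 p034.f03) (Nat.add (dd p012.f13 p134.f03) (dd p012.f23 p234.f03))))
      (Nat.add (Nat.add (dd p013.f23 p234.f13) (Nat.add (dd p023.f23 p134.f13) (dd p034.f13
      p123.f23))) (Nat.add (dd p014.f23 p234.f23) (Nat.add (dd p024.f23 p134.f23) (dd p034.f23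
      p124.f23))))) (Nat.add (Nat.add (Nat.add (dd x1.g0 x0.g0) (Nat.add (dd x2.g0 x0.g1) (dd
      x3.g0 x0.g2))) (Nat.add (dd x4.g0 x0.g3) (Nat.add (dd x2.g1 x1.g1) (dd x3.g1 x1.g2))))
      (Nat.add (Nat.add (dd x4.g1 x1.g3) (Nat.add (dd x3.g2 x2.g2) (dd x4.g2 x2.g3))) (Nat.add
      (dd C.x.g0 x0.g4) (Nat.add (dd C.x.g1 x1.g4) (dd C.x.g2 x2.g4))))))

/-- the final comparison -/
def G3 (C : Ctx) (s034 s134 s234 e03 e13 e23 e04 e14 e24 : St) (p012 p013 p014 p023 p024 p123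
    p124 : Pay) (x3 x4 : X5) (acc : Nat) (e34 : St) (x0 x1 x2 : X5) : Bool :=
  ch C.x.bt x0.bt (ch C.x.bt x1.bt (ch C.x.bt x2.bt
    (Nat.ble (Nat.land (Nat.shiftRight (Nat.add acc (m9 C p012 p013 p014 p023 p024 (oL s034 e03
        e04 e34) p123 p124 (oL s134 e13 e14 e34) (oL s234 e23 e24 e34) x0 x1 x2 x3 x4)) 576)
        281474976710655) bnd)))

/-- level 9 -/
def L9 (f : St → X5 → X5 → X5 → Bool) (D0 D1 D2 : N9) : Bool :=
  D0.m.M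
    (D1.m.ka (D2.m.ka (f .a D0.a D1.a D2.a)))
    (D1.m.kb (D2.m.kb (f .b D0.b D1.b D2.b)))
    (D1.m.kc (D2.m.kc (f .c D0.c D1.c D2.c)))
    (D1.m.kd (D2.m.kd (f .d D0.d D1.d D2.d)))

/-- after level 8 -/
def G2 (C : Ctx) (s014 s024 s124 s034 s134 s234 e01 e02 e12 e03 e13 e23 : St) (p012 p013 p023
    p123 : Pay) (x4 : X5) (acc : Nat) (e04 e14 e24 : St) (D0 D1 D2 : N9) (x3 : X5) : Bool :=
  ch C.x.bt x3.bt (L9 (G3 C s034 s134 s234 e03 e13 e23 e04 e14 e24 p012 p013 (oL s014 e01 e04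
      e14) p023 (oL s024 e02 e04 e24) p123 (oL s124 e12 e14 e24) x3 x4 (Nat.add acc (m8 C p013
      (oL s014 e01 e04 e14) p023 (oL s024 e02 e04 e24) p123 (oL s124 e12 e14 e24) x3 x4)))
    D0 D1 D2)

/-- level 8 -/
def L8 (f : St → N9 → N9 → N9 → X5 → Bool) (D0 D1 : N8) (D2 D3 : N9) : Bool :=
  D0.m.M
    (D1.m.ka (D3.m.ka (f .a D0.a D1.a D2 D3.a)))
    (D1.m.kb (D3.m.kb (f .b D0.b D1.b D2 D3.b)))
    (D1.m.kc (D3.m.kc (f .c D0.c D1.c D2 D3.c)))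
    (D1.m.kd (D3.m.kd (f .d D0.d D1.d D2 D3.d)))

/-- level 7 -/
def L7 (f : St → St → N9 → N9 → N9 → X5 → Bool) (D0 : N7) (D1 D2 D3 : N8) : Bool :=
  D0.m.M
    (D2.m.ka (D3.m.ka (L8 (f .a) D0.a D1 D2.a D3.a)))
    (D2.m.kb (D3.m.kb (L8 (f .b) D0.b D1 D2.b D3.b)))
    (D2.m.kc (D3.m.kc (L8 (f .c) D0.c D1 D2.c D3.c)))
    (D2.m.kd (D3.m.kd (L8 (f .d) D0.d D1 D2.d D3.d)))

/-- level 6 -/
def L6 (f : St → St → St → N9 → N9 → N9 → X5 → Bool) (D0 D1 D2 D3 : N7) : Bool :=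
  D1.m.M
    (D2.m.ka (D3.m.ka (L7 (f .a) D0 D1.a D2.a D3.a)))
    (D2.m.kb (D3.m.kb (L7 (f .b) D0 D1.b D2.b D3.b)))
    (D2.m.kc (D3.m.kc (L7 (f .c) D0 D1.c D2.c D3.c)))
    (D2.m.kd (D3.m.kd (L7 (f .d) D0 D1.d D2.d D3.d)))

/-- after level 5 -/
def G1 (C : Ctx) (s012 s013 s023 s123 s014 s024 s124 s034 s134 s234 e01 e02 e12 e03 e13 e23 :
    St) (D0 D1 D2 D3 : N7) (x4 : X5) : Bool :=
  ch C.x.bt x4.bt (L6 (G2 C s014 s024 s124 s034 s134 s234 e01 e02 e12 e03 e13 e23 (oL s012 e01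
      e02 e12) (oL s013 e01 e03 e13) (oL s023 e02 e03 e23) (oL s123 e12 e13 e23) x4 (m5 C (oL
      s012 e01 e02 e12) (oL s013 e01 e03 e13) (oL s023 e02 e03 e23) (oL s123 e12 e13 e23) x4))
    D0 D1 D2 D3)

/-- level 5 -/
def L5 (f : St → N7 → N7 → N7 → N7 → X5 → Bool) (D0 D1 : N6) (D2 D3 : N7) (D4 : N9) : Bool :=
  D0.m.M
    (D1.m.ka (D4.m.ka (f .a D0.a D1.a D2 D3 D4.a)))
    (D1.m.kb (D4.m.kb (f .b D0.b D1.b D2 D3 D4.b)))
    (D1.m.kc (D4.m.kc (f .c D0.c D1.c D2 D3 D4.c)))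
    (D1.m.kd (D4.m.kd (f .d D0.d D1.d D2 D3 D4.d)))

/-- level 4 -/
def L4 (f : St → St → N7 → N7 → N7 → N7 → X5 → Bool) (D0 : N5) (D1 D2 : N6) (D3 : N7) (D4 : N8)
    : Bool :=
  D0.m.M
    (D2.m.ka (D4.m.ka (L5 (f .a) D0.a D1 D2.a D3 D4.a)))
    (D2.m.kb (D4.m.kb (L5 (f .b) D0.b D1 D2.b D3 D4.b)))
    (D2.m.kc (D4.m.kc (L5 (f .c) D0.c D1 D2.c D3 D4.c)))
    (D2.m.kd (D4.m.kd (L5 (f .d) D0.d D1 D2.d D3 D4.d)))

/-- level 3 -/
def L3 (f : St → St → St → N7 → N7 → N7 → N7 → X5 → Bool) (D0 D1 D2 : N5) (D3 D4 : N7) : Bool :=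
  D1.m.M
    (D2.m.ka (D4.m.ka (L4 (f .a) D0 D1.a D2.a D3 D4.a)))
    (D2.m.kb (D4.m.kb (L4 (f .b) D0 D1.b D2.b D3 D4.b)))
    (D2.m.kc (D4.m.kc (L4 (f .c) D0 D1.c D2.c D3 D4.c)))
    (D2.m.kd (D4.m.kd (L4 (f .d) D0 D1.d D2.d D3 D4.d)))

/-- level 2 -/
def L2 (f : St → St → St → St → N7 → N7 → N7 → N7 → X5 → Bool) (D0 : N4) (D1 D2 : N5) (D3 D4 :
    N6) : Bool :=
  D0.m.M
    (D3.m.ka (D4.m.ka (L3 (f .a) D0.a D1 D2 D3.a D4.a)))
    (D3.m.kb (D4.m.kb (L3 (f .b) D0.b D1 D2 D3.b D4.b)))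
    (D3.m.kc (D4.m.kc (L3 (f .c) D0.c D1 D2 D3.c D4.c)))
    (D3.m.kd (D4.m.kd (L3 (f .d) D0.d D1 D2 D3.d D4.d)))

/-- level 1 -/
def L1 (f : St → St → St → St → St → N7 → N7 → N7 → N7 → X5 → Bool) (D0 D1 : N4) (D2 D3 D4 : N5)
    : Bool :=
  D1.m.M
    (D3.m.ka (D4.m.ka (L2 (f .a) D0 D1.a D2 D3.a D4.a)))
    (D3.m.kb (D4.m.kb (L2 (f .b) D0 D1.b D2 D3.b D4.b)))
    (D3.m.kc (D4.m.kc (L2 (f .c) D0 D1.c D2 D3.c D4.c)))
    (D3.m.kd (D4.m.kd (L2 (f .d) D0 D1.d D2 D3.d D4.d)))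

/-- level 0 -/
def L0 (f : St → St → St → St → St → St → N7 → N7 → N7 → N7 → X5 → Bool) (D0 D1 D2 D3 D4 : N4) :
    Bool :=
  D2.m.M
    (D3.m.ka (D4.m.ka (L1 (f .a) D0 D1 D2.a D3.a D4.a)))
    (D3.m.kb (D4.m.kb (L1 (f .b) D0 D1 D2.b D3.b D4.b)))
    (D3.m.kc (D4.m.kc (L1 (f .c) D0 D1 D2.c D3.c D4.c)))
    (D3.m.kd (D4.m.kd (L1 (f .d) D0 D1 D2.d D3.d D4.d)))

/-- evaluation of the pattern before use -/
def nP (q : Pay) (k : Pay → N4 → Bool) : Bool :=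
  Pay.casesOn q (fun t0 t1 t2 sg f01 f02 f12 f03 f13 f23 dn =>
    k (Pay.mk t0 t1 t2 sg f01 f02 f12 f03 f13 f23 dn) dn)

/-- the search from given first five points -/
def start (s012 s013 s023 s123 s014 s024 s124 s034 s134 s234 : St) (x : X5) : Bool :=
  nP (oL s123 s124 s134 s234) (fun q0 D0 => nP (oL s023 s024 s034 s234) (fun q1 D1 =>
  nP (oL s013 s014 s034 s134) (fun q2 D2 => nP (oL s012 s014 s024 s124) (fun q3 D3 =>
  nP (oL s012 s013 s023 s123) (fun q4 D4 =>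
  L0 (G1 (Ctx.mk q0 q1 q2 q3 q4 x) s012 s013 s023 s123 s014 s024 s124 s034 s134 s234)
    D0 D1 D2 D3 D4)))))

/-- the search if the labelling is the chosen one -/
def st0 (s012 s013 s023 s123 s014 s024 s124 s034 s134 s234 : St) (x : X5) : Bool :=
  Bool.casesOn (Nat.beq x.ds 0) true
    (start s012 s013 s023 s123 s014 s024 s124 s034 s134 s234 x)

/-- all allowed states -/
def w9 (f : St → X5 → Bool) (D : N9) : Bool :=
  D.m.M (f .a D.a) (f .b D.b) (f .c D.c) (f .d D.d)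

/-- all allowed states -/
def w8 (f : St → St → X5 → Bool) (D : N8) : Bool :=
  D.m.M (w9 (f .a) D.a) (w9 (f .b) D.b) (w9 (f .c) D.c) (w9 (f .d) D.d)

/-- all allowed states -/
def w7 (f : St → St → St → X5 → Bool) (D : N7) : Bool :=
  D.m.M (w8 (f .a) D.a) (w8 (f .b) D.b) (w8 (f .c) D.c) (w8 (f .d) D.d)

/-- all allowed states -/
def w6 (f : St → St → St → St → X5 → Bool) (D : N6) : Bool :=
  D.m.M (w7 (f .a) D.a) (w7 (f .b) D.b) (w7 (f .c) D.c) (w7 (f .d) D.d)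

/-- all allowed states -/
def w5 (f : St → St → St → St → St → X5 → Bool) (D : N5) : Bool :=
  D.m.M (w6 (f .a) D.a) (w6 (f .b) D.b) (w6 (f .c) D.c) (w6 (f .d) D.d)

/-- all allowed states -/
def w4 (f : St → St → St → St → St → St → X5 → Bool) (D : N4) : Bool :=
  D.m.M (w5 (f .a) D.a) (w5 (f .b) D.b) (w5 (f .c) D.c) (w5 (f .d) D.d)

/-- the whole search for given first four points -/
def top (s012 s013 s023 s123 : St) : Bool :=
  w4 (st0 s012 s013 s023 s123) (oL s012 s013 s023 s123).dn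

end

end Pool.Agent.Helper86.Ac
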