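import Mathlib
import Pool.Agent.Helper86.Ac.Chk
import Pool.Agent.Helper86.Acute.Mask

/-! Statements of the packets. -/

namespace Pool.Agent.Helper86.Ac

open Pool.Agent.Helper86.Acute

noncomputable section

/-- membership of a state in a set -/
def MB.has (m : MB) (s : St) : Bool :=
  !(St.casesOn (motive := fun _ => Bool) s (m.ka false) (m.kb false) (m.kc false) (m.kd false))

/-- States of the ten triples of five points. -/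
structure C5 where
  (s012 s013 s023 s123 s014 s024 s124 s034 s134 s234 : St)

/-- pattern of the first four points -/
def C5.P (c : C5) : Pay := oL c.s012 c.s013 c.s023 c.s123

/-- the leaf of the tree -/
def C5.leaf (c : C5) : X5 :=
  (((((c.P.dn.sel c.s014).sel c.s024).sel c.s124).sel c.s034).sel c.s134).sel c.s234

/-- membership in the tree -/
def C5.mem (c : C5) : Bool :=
  c.P.dn.m.has c.s014 && (c.P.dn.sel c.s014).m.has c.s024 &&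
  ((c.P.dn.sel c.s014).sel c.s024).m.has c.s124 &&
  (((c.P.dn.sel c.s014).sel c.s024).sel c.s124).m.has c.s034 &&
  ((((c.P.dn.sel c.s014).sel c.s024).sel c.s124).sel c.s034).m.has c.s134 &&
  (((((c.P.dn.sel c.s014).sel c.s024).sel c.s124).sel c.s034).sel c.s134).m.has c.s234

/-- exchange of points 0 and 1 -/
def C5.t0 (c : C5) : C5 := ⟨r12 c.s012, r12 c.s013, c.s123, c.s023, r12 c.s014, c.s124, c.s024,
  c.s134, c.s034, c.s234⟩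
/-- exchange of points 1 and 2 -/
def C5.t1 (c : C5) : C5 := ⟨r23 c.s012, c.s023, c.s013, r12 c.s123, c.s024, c.s014, r12 c.s124,
  c.s034, c.s234, c.s134⟩
/-- exchange of points 2 and 3 -/
def C5.t2 (c : C5) : C5 := ⟨c.s013, c.s012, r23 c.s023, r23 c.s123, c.s014, c.s034, c.s134,
  c.s024, c.s124, r12 c.s234⟩
/-- exchange of points 3 and 4 -/
def C5.t3 (c : C5) : C5 := ⟨c.s012, c.s014, c.s024, c.s124, c.s013, c.s023, c.s123, r23 c.s034,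
  r23 c.s134, r23 c.s234⟩

/-- coordinate `k` of a flag vector -/
def rr (f : F) (k : ℕ) : ℤ := ((f.A / 2 ^ (48 * (k + 1)) % 2 ^ 48 : ℕ) : ℤ) - 2 ^ 17

/-- `2 ^ 26` times the number of acute triples of the flag -/
def acZ (f : F) : ℤ :=
  ((f.A / 2 ^ 576 : ℕ) : ℤ) - 11 * 2 ^ 35 + 2 ^ 17 * ∑ k ∈ Finset.range 11, (rr f k + 2 ^ 17)

/-- the product of two flags -/
def dotF (f g : F) : ℤ := acZ f + acZ g + ∑ k ∈ Finset.range 11, rr f k * rr g k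

/-- correct packing -/
def Good (f : F) : Prop :=
  f.A % 2 ^ 48 = 1 ∧ f.A / 2 ^ 576 < 2 ^ 40 ∧
  (∀ k, k < 11 → f.A / 2 ^ (48 * (k + 1)) % 2 ^ 48 ≤ 2 ^ 18) ∧
  f.B % 2 ^ 48 = 1 ∧ f.B / 2 ^ 576 = f.A / 2 ^ 576 ∧
  (∀ k, k < 11 → f.B / 2 ^ (48 * (k + 1)) % 2 ^ 48 = f.A / 2 ^ (48 * (11 - k)) % 2 ^ 48)

/-- correct packing of all flags of a pattern -/
def GoodP (p : Pay) : Prop :=
  Good p.f01 ∧ Good p.f02 ∧ Good p.f12 ∧ Good p.f03 ∧ Good p.f13 ∧ Good p.f23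

/-- correct packing of all flags of a leaf -/
def GoodX (x : X5) : Prop := Good x.g0 ∧ Good x.g1 ∧ Good x.g2 ∧ Good x.g3 ∧ Good x.g4

/-- sign of coordinate `k` -/
def sgn (t : Bool) (sg k : ℕ) : ℤ := if t && sg.testBit k then -1 else 1

/-- 1 for acute triples -/
def isA (s : St) : ℤ := St.casesOn (motive := fun _ => ℤ) s 1 0 0 0

/-- Packet PAY: facts on patterns of four points. -/
def PayStmt : Prop := ∀ s1 s2 s3 s4 : St,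
  Good (oL s1 s2 s3 s4).f01 ∧
  (oL s1 s2 s3 s4).f02 = (oL (r23 s1) s3 s2 (r12 s4)).f01 ∧
  (oL s1 s2 s3 s4).f12 = (oL (r23 (r12 s1)) s4 (r12 s2) (r12 s3)).f01 ∧
  (oL s1 s2 s3 s4).f03 = (oL (r23 s2) (r23 s3) s1 (r12 (r23 s4))).f01 ∧
  (oL s1 s2 s3 s4).f13 = (oL (r23 (r12 s2)) (r23 s4) (r12 s1) (r12 (r23 s3))).f01 ∧
  (oL s1 s2 s3 s4).f23 =
    (oL (r23 (r12 s3)) (r23 (r12 s4)) (r12 (r23 s1)) (r12 (r23 s2))).f01 ∧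
  (oL s1 s2 s3 s4).f01 = (oL s2 s1 (r23 s3) (r23 s4)).f01 ∧
  acZ (oL (r12 s1) (r12 s2) s4 s3).f01 = acZ (oL s1 s2 s3 s4).f01 ∧
  (∀ k, k < 11 → rr (oL (r12 s1) (r12 s2) s4 s3).f01 k =
    sgn true sg0 k * rr (oL s1 s2 s3 s4).f01 k) ∧
  0 ≤ acZ (oL s1 s2 s3 s4).f01 ∧ acZ (oL s1 s2 s3 s4).f01 ≤ 2 ^ 28 ∧
  (∀ b1 b2 b3 b4 : Bool, ok4 s1 s2 s3 s4 b1 b2 b3 b4 = true →
    acZ (oL s1 s2 s3 s4).f01 = 2 ^ 26 * (isA s1 + isA s2 + isA s3 + isA s4))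

/-- Facts on one pattern of five points. -/
def WalkOK (c : C5) : Prop :=
  (GoodX c.leaf ∧ acZ c.leaf.g0 = 0 ∧ acZ c.leaf.g1 = 0 ∧ acZ c.leaf.g2 = 0 ∧
    acZ c.leaf.g3 = 0 ∧ acZ c.leaf.g4 = 0) ∧
  (c.t0.leaf.bt = c.leaf.bt ∧ c.t1.leaf.bt = c.leaf.bt ∧ c.t2.leaf.bt = c.leaf.bt ∧
    c.t3.leaf.bt = c.leaf.bt) ∧
  (c.leaf.ds = 0 ∨ c.t0.leaf.ds < c.leaf.ds ∨ c.t1.leaf.ds < c.leaf.ds ∨
    c.t2.leaf.ds < c.leaf.ds ∨ c.t3.leaf.ds < c.leaf.ds) ∧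
  (c.leaf.g0 = c.t0.leaf.g1 ∧ c.leaf.g1 = c.t1.leaf.g2 ∧ c.leaf.g2 = c.t2.leaf.g3 ∧
    c.leaf.g3 = c.t3.leaf.g4) ∧
  (∀ k, k < 11 → rr c.t0.leaf.g4 k = sgn c.P.t0 c.P.sg k * rr c.leaf.g4 k) ∧
  (∀ k, k < 11 → rr c.t1.leaf.g4 k = sgn c.P.t1 c.P.sg k * rr c.leaf.g4 k) ∧
  (∀ k, k < 11 → rr c.t2.leaf.g4 k = sgn c.P.t2 c.P.sg k * rr c.leaf.g4 k)

/-- Packet WALK: facts on all patterns of five points. -/
def WalkStmt : Prop := ∀ c : C5, c.mem = true → WalkOK c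

/-- Packet FIVE: realizable patterns of five points are in the tree. -/
def FiveStmt : Prop := ∀ (c : C5) (b012 b013 b023 b123 b014 b024 b124 b034 b134 b234 : Bool),
  ok4 c.s012 c.s013 c.s023 c.s123 b012 b013 b023 b123 = true →
  ok4 c.s012 c.s014 c.s024 c.s124 b012 b014 b024 b124 = true →
  ok4 c.s013 c.s014 c.s034 c.s134 b013 b014 b034 b134 = true →
  ok4 c.s023 c.s024 c.s034 c.s234 b023 b024 b034 b234 = true →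
  ok4 c.s123 c.s124 c.s134 c.s234 b123 b124 b134 b234 = true →
  c.mem = true

/-- Packet SOUND: soundness of the search. -/
def SoundStmt : Prop := ∀ s012 s013 s023 s123 s014 s024 s124 s034 s134 s234 e01 e02 e12 e03 e13
    e23 e04 e14 e24 e34 : St,
  top s012 s013 s023 s123 = true →
  (C5.mk s012 s013 s023 s123 s014 s024 s124 s034 s134 s234).mem = true → (C5.mk s012 s013 s023
      s123 s014 s024 s124 s034 s134 s234).leaf.ds = 0 →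
  (C5.mk s123 s124 s134 s234 e12 e13 e23 e14 e24 e34).mem = true → (C5.mk s012 s013 s023 s123
      s014 s024 s124 s034 s134 s234).leaf.bt ≤ (C5.mk s123 s124 s134 s234 e12 e13 e23 e14 e24
      e34).leaf.bt →
  (C5.mk s023 s024 s034 s234 e02 e03 e23 e04 e24 e34).mem = true → (C5.mk s012 s013 s023 s123
      s014 s024 s124 s034 s134 s234).leaf.bt ≤ (C5.mk s023 s024 s034 s234 e02 e03 e23 e04 e24
      e34).leaf.bt →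
  (C5.mk s013 s014 s034 s134 e01 e03 e13 e04 e14 e34).mem = true → (C5.mk s012 s013 s023 s123
      s014 s024 s124 s034 s134 s234).leaf.bt ≤ (C5.mk s013 s014 s034 s134 e01 e03 e13 e04 e14
      e34).leaf.bt →
  (C5.mk s012 s014 s024 s124 e01 e02 e12 e04 e14 e24).mem = true → (C5.mk s012 s013 s023 s123
      s014 s024 s124 s034 s134 s234).leaf.bt ≤ (C5.mk s012 s014 s024 s124 e01 e02 e12 e04 e14
      e24).leaf.bt →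
  (C5.mk s012 s013 s023 s123 e01 e02 e12 e03 e13 e23).mem = true → (C5.mk s012 s013 s023 s123
      s014 s024 s124 s034 s134 s234).leaf.bt ≤ (C5.mk s012 s013 s023 s123 e01 e02 e12 e03 e13
      e23).leaf.bt →
  Nat.ble (Nat.land (Nat.shiftRight (Nat.add (Nat.add
    (m5 (Ctx.mk (oL s123 s124 s134 s234) (oL s023 s024 s034 s234) (oL s013 s014 s034 s134) (oL
        s012 s014 s024 s124) (oL s012 s013 s023 s123) (C5.mk s012 s013 s023 s123 s014 s024 s124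
        s034 s134 s234).leaf) (oL s012 e01 e02 e12) (oL s013 e01 e03 e13) (oL s023 e02 e03 e23)
        (oL s123 e12 e13 e23) (C5.mk s012 s013 s023 s123 e01 e02 e12 e03 e13 e23).leaf)
    (m8 (Ctx.mk (oL s123 s124 s134 s234) (oL s023 s024 s034 s234) (oL s013 s014 s034 s134) (oL
        s012 s014 s024 s124) (oL s012 s013 s023 s123) (C5.mk s012 s013 s023 s123 s014 s024 s124
        s034 s134 s234).leaf) (oL s013 e01 e03 e13) (oL s014 e01 e04 e14) (oL s023 e02 e03 e23)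
        (oL s024 e02 e04 e24) (oL s123 e12 e13 e23) (oL s124 e12 e14 e24) (C5.mk s012 s014 s024
        s124 e01 e02 e12 e04 e14 e24).leaf (C5.mk s012 s013 s023 s123 e01 e02 e12 e03 e13
        e23).leaf))
    (m9 (Ctx.mk (oL s123 s124 s134 s234) (oL s023 s024 s034 s234) (oL s013 s014 s034 s134) (oL
        s012 s014 s024 s124) (oL s012 s013 s023 s123) (C5.mk s012 s013 s023 s123 s014 s024 s124
        s034 s134 s234).leaf) (oL s012 e01 e02 e12) (oL s013 e01 e03 e13) (oL s014 e01 e04 e14)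
        (oL s023 e02 e03 e23) (oL s024 e02 e04 e24) (oL s034 e03 e04 e34) (oL s123 e12 e13 e23)
        (oL s124 e12 e14 e24) (oL s134 e13 e14 e34) (oL s234 e23 e24 e34) (C5.mk s123 s124 s134
        s234 e12 e13 e23 e14 e24 e34).leaf (C5.mk s023 s024 s034 s234 e02 e03 e23 e04 e24
        e34).leaf (C5.mk s013 s014 s034 s134 e01 e03 e13 e04 e14 e34).leaf (C5.mk s012 s014 s024
        s124 e01 e02 e12 e04 e14 e24).leaf (C5.mk s012 s013 s023 s123 e01 e02 e12 e03 e13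
        e23).leaf)) 576) 281474976710655) bnd = true

/-- integer form of `u012` -/
def z012 (C : Ctx) (p : Pay) : ℤ :=
  dotF C.q0.f01 p.f12 + dotF C.q1.f01 p.f02 + dotF C.q2.f01 p.f01

/-- integer form of `u013` -/
def z013 (C : Ctx) (p : Pay) : ℤ :=
  dotF C.q0.f02 p.f12 + dotF C.q1.f02 p.f02 + dotF C.q3.f01 p.f01

/-- integer form of `u023` -/
def z023 (C : Ctx) (p : Pay) : ℤ :=
  dotF C.q0.f12 p.f12 + dotF C.q2.f02 p.f02 + dotF C.q3.f02 p.f01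

/-- integer form of `u123` -/
def z123 (C : Ctx) (p : Pay) : ℤ :=
  dotF C.q1.f12 p.f12 + dotF C.q2.f12 p.f02 + dotF C.q3.f12 p.f01

/-- integer form of `u014` -/
def z014 (C : Ctx) (p : Pay) : ℤ :=
  dotF C.q0.f03 p.f12 + dotF C.q1.f03 p.f02 + dotF C.q4.f01 p.f01

/-- integer form of `u024` -/
def z024 (C : Ctx) (p : Pay) : ℤ :=
  dotF C.q0.f13 p.f12 + dotF C.q2.f03 p.f02 + dotF C.q4.f02 p.f01

/-- integer form of `u124` -/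
def z124 (C : Ctx) (p : Pay) : ℤ :=
  dotF C.q1.f13 p.f12 + dotF C.q2.f13 p.f02 + dotF C.q4.f12 p.f01

/-- integer form of `u034` -/
def z034 (C : Ctx) (p : Pay) : ℤ :=
  dotF C.q0.f23 p.f12 + dotF C.q3.f03 p.f02 + dotF C.q4.f03 p.f01

/-- integer form of `u134` -/
def z134 (C : Ctx) (p : Pay) : ℤ :=
  dotF C.q1.f23 p.f12 + dotF C.q3.f13 p.f02 + dotF C.q4.f13 p.f01

/-- integer form of `u234` -/
def z234 (C : Ctx) (p : Pay) : ℤ :=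
  dotF C.q2.f23 p.f12 + dotF C.q3.f23 p.f02 + dotF C.q4.f23 p.f01

/-- integer form of `m5` -/
def z5 (C : Ctx) (p012 p013 p023 p123 : Pay) (x4 : X5) : ℤ :=
  z012 C p012 + z013 C p013 + z023 C p023 + z123 C p123 + dotF C.x.g4 x4.g4

/-- integer form of `m8` -/
def z8 (C : Ctx) (p013 p014 p023 p024 p123 p124 : Pay) (x3 x4 : X5) : ℤ :=
  z014 C p014 + z024 C p024 + z124 C p124 + dotF p013.f03 p024.f03 + dotF p014.f03 p023.f03 +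
      dotF p013.f13 p124.f03 + dotF p014.f13 p123.f03 + dotF p023.f13 p124.f13 + dotF p024.f13
      p123.f13 + dotF x4.g3 x3.g3 + dotF C.x.g3 x3.g4

/-- integer form of `m9` -/
def z9 (C : Ctx) (p012 p013 p014 p023 p024 p034 p123 p124 p134 p234 : Pay) (x0 x1 x2 x3 x4 : X5)
    : ℤ :=
  z034 C p034 + z134 C p134 + z234 C p234 + dotF p012.f03 p034.f03 + dotF p012.f13 p134.f03 +
      dotF p012.f23 p234.f03 + dotF p013.f23 p234.f13 + dotF p023.f23 p134.f13 + dotF p034.f13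
      p123.f23 + dotF p014.f23 p234.f23 + dotF p024.f23 p134.f23 + dotF p034.f23 p124.f23 + dotF
      x1.g0 x0.g0 + dotF x2.g0 x0.g1 + dotF x3.g0 x0.g2 + dotF x4.g0 x0.g3 + dotF x2.g1 x1.g1 +
      dotF x3.g1 x1.g2 + dotF x4.g1 x1.g3 + dotF x3.g2 x2.g2 + dotF x4.g2 x2.g3 + dotF C.x.g0
      x0.g4 + dotF C.x.g1 x1.g4 + dotF C.x.g2 x2.g4

/-- Packet KRON: from the packed sum to the integer sum. -/
def KronStmt : Prop := ∀ (C : Ctx) (p012 p013 p023 p123 p014 p024 p124 p034 p134 p234 : Pay)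
    (x0 x1 x2 x3 x4 : X5),
  GoodP C.q0 → GoodP C.q1 → GoodP C.q2 → GoodP C.q3 → GoodP C.q4 → GoodX C.x →
  GoodP p012 → GoodP p013 → GoodP p023 → GoodP p123 → GoodP p014 → GoodP p024 → GoodP p124 →
  GoodP p034 → GoodP p134 → GoodP p234 →
  GoodX x0 → GoodX x1 → GoodX x2 → GoodX x3 → GoodX x4 →
  Nat.ble (Nat.land (Nat.shiftRight (Nat.add (Nat.add (m5 C p012 p013 p023 p123 x4)
    (m8 C p013 p014 p023 p024 p123 p124 x3 x4))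
    (m9 C p012 p013 p014 p023 p024 p034 p123 p124 p134 p234 x0 x1 x2 x3 x4)) 576)
      281474976710655) bnd = true →
  z5 C p012 p013 p023 p123 x4 + z8 C p013 p014 p023 p024 p123 p124 x3 x4 +
    z9 C p012 p013 p014 p023 p024 p034 p123 p124 p134 p234 x0 x1 x2 x3 x4 ≤ 13475945715

/-- six distinct points -/
def Dis6 {α : Type} (x0 x1 x2 x3 x4 x5 : α) : Prop :=
  x0 ≠ x1 ∧ x0 ≠ x2 ∧ x0 ≠ x3 ∧ x0 ≠ x4 ∧ x0 ≠ x5 ∧ x1 ≠ x2 ∧ x1 ≠ x3 ∧ x1 ≠ x4 ∧ x1 ≠ x5 ∧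
  x2 ≠ x3 ∧ x2 ≠ x4 ∧ x2 ≠ x5 ∧ x3 ≠ x4 ∧ x3 ≠ x5 ∧ x4 ≠ x5

/-- five distinct points -/
def Dis5 {α : Type} (x0 x1 x2 x3 x4 : α) : Prop :=
  x0 ≠ x1 ∧ x0 ≠ x2 ∧ x0 ≠ x3 ∧ x0 ≠ x4 ∧ x1 ≠ x2 ∧ x1 ≠ x3 ∧ x1 ≠ x4 ∧ x2 ≠ x3 ∧ x2 ≠ x4 ∧
  x3 ≠ x4

/-- the sum of the sixty terms -/
def KT {α : Type} (D2 D4 : α → α → α → α → α → α → ℤ) (x0 x1 x2 x3 x4 x5 : α) : ℤ :=
  D2 x0 x1 x2 x3 x4 x5 + D2 x0 x1 x2 x4 x3 x5 + D2 x0 x1 x2 x5 x3 x4 + D2 x0 x2 x1 x3 x4 x5 + D2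
      x0 x2 x1 x4 x3 x5 + D2 x0 x2 x1 x5 x3 x4 + D2 x0 x3 x1 x2 x4 x5 + D2 x0 x3 x1 x4 x2 x5 +
      D2 x0 x3 x1 x5 x2 x4 + D2 x0 x4 x1 x2 x3 x5 + D2 x0 x4 x1 x3 x2 x5 + D2 x0 x4 x1 x5 x2 x3
      + D2 x0 x5 x1 x2 x3 x4 + D2 x0 x5 x1 x3 x2 x4 + D2 x0 x5 x1 x4 x2 x3 + D2 x1 x2 x0 x3 x4
      x5 + D2 x1 x2 x0 x4 x3 x5 + D2 x1 x2 x0 x5 x3 x4 + D2 x1 x3 x0 x2 x4 x5 + D2 x1 x3 x0 x4
      x2 x5 + D2 x1 x3 x0 x5 x2 x4 + D2 x1 x4 x0 x2 x3 x5 + D2 x1 x4 x0 x3 x2 x5 + D2 x1 x4 x0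
      x5 x2 x3 + D2 x1 x5 x0 x2 x3 x4 + D2 x1 x5 x0 x3 x2 x4 + D2 x1 x5 x0 x4 x2 x3 + D2 x2 x3
      x0 x1 x4 x5 + D2 x2 x3 x0 x4 x1 x5 + D2 x2 x3 x0 x5 x1 x4 + D2 x2 x4 x0 x1 x3 x5 + D2 x2
      x4 x0 x3 x1 x5 + D2 x2 x4 x0 x5 x1 x3 + D2 x2 x5 x0 x1 x3 x4 + D2 x2 x5 x0 x3 x1 x4 + D2
      x2 x5 x0 x4 x1 x3 + D2 x3 x4 x0 x1 x2 x5 + D2 x3 x4 x0 x2 x1 x5 + D2 x3 x4 x0 x5 x1 x2 +
      D2 x3 x5 x0 x1 x2 x4 + D2 x3 x5 x0 x2 x1 x4 + D2 x3 x5 x0 x4 x1 x2 + D2 x4 x5 x0 x1 x2 x3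
      + D2 x4 x5 x0 x2 x1 x3 + D2 x4 x5 x0 x3 x1 x2 + D4 x2 x3 x4 x5 x0 x1 + D4 x1 x3 x4 x5 x0
      x2 + D4 x1 x2 x4 x5 x0 x3 + D4 x1 x2 x3 x5 x0 x4 + D4 x1 x2 x3 x4 x0 x5 + D4 x0 x3 x4 x5
      x1 x2 + D4 x0 x2 x4 x5 x1 x3 + D4 x0 x2 x3 x5 x1 x4 + D4 x0 x2 x3 x4 x1 x5 + D4 x0 x1 x4
      x5 x2 x3 + D4 x0 x1 x3 x5 x2 x4 + D4 x0 x1 x3 x4 x2 x5 + D4 x0 x1 x2 x5 x3 x4 + D4 x0 x1
      x2 x4 x3 x5 + D4 x0 x1 x2 x3 x4 x5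

/-- pattern of four points -/
def pt {α : Type} (S : α → α → α → St) (i j k l : α) : Pay :=
  oL (S i j k) (S i j l) (S i k l) (S j k l)

/-- pattern of five points -/
def cd {α : Type} (S : α → α → α → St) (w0 w1 w2 w3 w4 : α) : C5 :=
  ⟨S w0 w1 w2, S w0 w1 w3, S w0 w2 w3, S w1 w2 w3, S w0 w1 w4, S w0 w2 w4, S w1 w2 w4,
    S w0 w3 w4, S w1 w3 w4, S w2 w3 w4⟩

/-- flag with two marked points -/
def phi {α : Type} (S : α → α → α → St) (k : ℕ) (p q a b : α) : ℤ := rr (pt S p q a b).f01 k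

/-- acute triples of the flag -/
def acs {α : Type} (S : α → α → α → St) (p q a b : α) : ℤ := acZ (pt S p q a b).f01

open Classical in
/-- flag with four marked points -/
def psi {α : Type} (S : α → α → α → St) (k : ℕ) (a b c d u : α) : ℤ :=
  if Dis5 a b c d u then rr (cd S a b c d u).leaf.g4 k else 0

/-- term with two common points -/
def D2 {α : Type} (S : α → α → α → St) (p q a b c d : α) : ℤ :=
  acs S p q a b + acs S p q c d + ∑ k ∈ Finset.range 11, phi S k p q a b * phi S k p q c d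

/-- term with four common points -/
def D4 {α : Type} (S : α → α → α → St) (a b c d u v : α) : ℤ :=
  ∑ k ∈ Finset.range 11, psi S k a b c d u * psi S k a b c d v

/-- states of a configuration -/
structure Adm {n : ℕ} (S : Fin n → Fin n → Fin n → St) : Prop where
  h12 : ∀ i j k, S j i k = r12 (S i j k)
  h23 : ∀ i j k, S i k j = r23 (S i j k)
  h4 : ∀ i j k l, i ≠ j → i ≠ k → i ≠ l → j ≠ k → j ≠ l → k ≠ l →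
    ∃ b1 b2 b3 b4, ok4 (S i j k) (S i j l) (S i k l) (S j k l) b1 b2 b3 b4 = true
  h5 : ∀ w0 w1 w2 w3 w4, Dis5 w0 w1 w2 w3 w4 → (cd S w0 w1 w2 w3 w4).mem = true

/-- Packet SUMKT: the integer sum of the search is `KT`. -/
def SumStmt : Prop := PayStmt → WalkStmt → ∀ (n : ℕ) (S : Fin n → Fin n → Fin n → St), Adm S →
  ∀ x0 x1 x2 x3 x4 x5 : Fin n, Dis6 x0 x1 x2 x3 x4 x5 →
  (z5 (Ctx.mk (oL (S x1 x2 x3) (S x1 x2 x4) (S x1 x3 x4) (S x2 x3 x4)) (oL (S x0 x2 x3) (S x0 x2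
      x4) (S x0 x3 x4) (S x2 x3 x4)) (oL (S x0 x1 x3) (S x0 x1 x4) (S x0 x3 x4) (S x1 x3 x4))
      (oL (S x0 x1 x2) (S x0 x1 x4) (S x0 x2 x4) (S x1 x2 x4)) (oL (S x0 x1 x2) (S x0 x1 x3) (S
      x0 x2 x3) (S x1 x2 x3)) (C5.mk (S x0 x1 x2) (S x0 x1 x3) (S x0 x2 x3) (S x1 x2 x3) (S x0
      x1 x4) (S x0 x2 x4) (S x1 x2 x4) (S x0 x3 x4) (S x1 x3 x4) (S x2 x3 x4)).leaf) (oL (S x0
      x1 x2) (S x0 x1 x5) (S x0 x2 x5) (S x1 x2 x5)) (oL (S x0 x1 x3) (S x0 x1 x5) (S x0 x3 x5)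
      (S x1 x3 x5)) (oL (S x0 x2 x3) (S x0 x2 x5) (S x0 x3 x5) (S x2 x3 x5)) (oL (S x1 x2 x3) (S
      x1 x2 x5) (S x1 x3 x5) (S x2 x3 x5)) (C5.mk (S x0 x1 x2) (S x0 x1 x3) (S x0 x2 x3) (S x1
      x2 x3) (S x0 x1 x5) (S x0 x2 x5) (S x1 x2 x5) (S x0 x3 x5) (S x1 x3 x5) (S x2 x3
      x5)).leaf) +
    (z8 (Ctx.mk (oL (S x1 x2 x3) (S x1 x2 x4) (S x1 x3 x4) (S x2 x3 x4)) (oL (S x0 x2 x3) (S x0
        x2 x4) (S x0 x3 x4) (S x2 x3 x4)) (oL (S x0 x1 x3) (S x0 x1 x4) (S x0 x3 x4) (S x1 x3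
        x4)) (oL (S x0 x1 x2) (S x0 x1 x4) (S x0 x2 x4) (S x1 x2 x4)) (oL (S x0 x1 x2) (S x0 x1
        x3) (S x0 x2 x3) (S x1 x2 x3)) (C5.mk (S x0 x1 x2) (S x0 x1 x3) (S x0 x2 x3) (S x1 x2
        x3) (S x0 x1 x4) (S x0 x2 x4) (S x1 x2 x4) (S x0 x3 x4) (S x1 x3 x4) (S x2 x3 x4)).leaf)
        (oL (S x0 x1 x3) (S x0 x1 x5) (S x0 x3 x5) (S x1 x3 x5)) (oL (S x0 x1 x4) (S x0 x1 x5)
        (S x0 x4 x5) (S x1 x4 x5)) (oL (S x0 x2 x3) (S x0 x2 x5) (S x0 x3 x5) (S x2 x3 x5)) (oL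
        (S x0 x2 x4) (S x0 x2 x5) (S x0 x4 x5) (S x2 x4 x5)) (oL (S x1 x2 x3) (S x1 x2 x5) (S x1
        x3 x5) (S x2 x3 x5)) (oL (S x1 x2 x4) (S x1 x2 x5) (S x1 x4 x5) (S x2 x4 x5)) (C5.mk (S
        x0 x1 x2) (S x0 x1 x4) (S x0 x2 x4) (S x1 x2 x4) (S x0 x1 x5) (S x0 x2 x5) (S x1 x2 x5)
        (S x0 x4 x5) (S x1 x4 x5) (S x2 x4 x5)).leaf (C5.mk (S x0 x1 x2) (S x0 x1 x3) (S x0 x2
        x3) (S x1 x2 x3) (S x0 x1 x5) (S x0 x2 x5) (S x1 x2 x5) (S x0 x3 x5) (S x1 x3 x5) (S x2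
        x3 x5)).leaf) +
    (z9 (Ctx.mk (oL (S x1 x2 x3) (S x1 x2 x4) (S x1 x3 x4) (S x2 x3 x4)) (oL (S x0 x2 x3) (S x0
        x2 x4) (S x0 x3 x4) (S x2 x3 x4)) (oL (S x0 x1 x3) (S x0 x1 x4) (S x0 x3 x4) (S x1 x3
        x4)) (oL (S x0 x1 x2) (S x0 x1 x4) (S x0 x2 x4) (S x1 x2 x4)) (oL (S x0 x1 x2) (S x0 x1
        x3) (S x0 x2 x3) (S x1 x2 x3)) (C5.mk (S x0 x1 x2) (S x0 x1 x3) (S x0 x2 x3) (S x1 x2
        x3) (S x0 x1 x4) (S x0 x2 x4) (S x1 x2 x4) (S x0 x3 x4) (S x1 x3 x4) (S x2 x3 x4)).leaf)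
        (oL (S x0 x1 x2) (S x0 x1 x5) (S x0 x2 x5) (S x1 x2 x5)) (oL (S x0 x1 x3) (S x0 x1 x5)
        (S x0 x3 x5) (S x1 x3 x5)) (oL (S x0 x1 x4) (S x0 x1 x5) (S x0 x4 x5) (S x1 x4 x5)) (oL
        (S x0 x2 x3) (S x0 x2 x5) (S x0 x3 x5) (S x2 x3 x5)) (oL (S x0 x2 x4) (S x0 x2 x5) (S x0
        x4 x5) (S x2 x4 x5)) (oL (S x0 x3 x4) (S x0 x3 x5) (S x0 x4 x5) (S x3 x4 x5)) (oL (S x1
        x2 x3) (S x1 x2 x5) (S x1 x3 x5) (S x2 x3 x5)) (oL (S x1 x2 x4) (S x1 x2 x5) (S x1 x4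
        x5) (S x2 x4 x5)) (oL (S x1 x3 x4) (S x1 x3 x5) (S x1 x4 x5) (S x3 x4 x5)) (oL (S x2 x3
        x4) (S x2 x3 x5) (S x2 x4 x5) (S x3 x4 x5)) (C5.mk (S x1 x2 x3) (S x1 x2 x4) (S x1 x3
        x4) (S x2 x3 x4) (S x1 x2 x5) (S x1 x3 x5) (S x2 x3 x5) (S x1 x4 x5) (S x2 x4 x5) (S x3
        x4 x5)).leaf (C5.mk (S x0 x2 x3) (S x0 x2 x4) (S x0 x3 x4) (S x2 x3 x4) (S x0 x2 x5) (S
        x0 x3 x5) (S x2 x3 x5) (S x0 x4 x5) (S x2 x4 x5) (S x3 x4 x5)).leaf (C5.mk (S x0 x1 x3)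
        (S x0 x1 x4) (S x0 x3 x4) (S x1 x3 x4) (S x0 x1 x5) (S x0 x3 x5) (S x1 x3 x5) (S x0 x4
        x5) (S x1 x4 x5) (S x3 x4 x5)).leaf (C5.mk (S x0 x1 x2) (S x0 x1 x4) (S x0 x2 x4) (S x1
        x2 x4) (S x0 x1 x5) (S x0 x2 x5) (S x1 x2 x5) (S x0 x4 x5) (S x1 x4 x5) (S x2 x4
        x5)).leaf (C5.mk (S x0 x1 x2) (S x0 x1 x3) (S x0 x2 x3) (S x1 x2 x3) (S x0 x1 x5) (S x0
        x2 x5) (S x1 x2 x5) (S x0 x3 x5) (S x1 x3 x5) (S x2 x3 x5)).leaf) =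
  KT (D2 S) (D4 S) x0 x1 x2 x3 x4 x5

/-- symmetries of the terms -/
structure SymD {α : Type} (D2 D4 : α → α → α → α → α → α → ℤ) : Prop where
  p01 : ∀ p q a b c d, D2 q p a b c d = D2 p q a b c d
  p23 : ∀ p q a b c d, D2 p q b a c d = D2 p q a b c d
  p24 : ∀ p q a b c d, D2 p q c d a b = D2 p q a b c d
  q01 : ∀ a b c d u v, D4 b a c d u v = D4 a b c d u v
  q12 : ∀ a b c d u v, D4 a c b d u v = D4 a b c d u v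
  q23 : ∀ a b c d u v, D4 a b d c u v = D4 a b c d u v
  q45 : ∀ a b c d u v, D4 a b c d v u = D4 a b c d u v

/-- Packet SYMD: the terms have the symmetries. -/
def SymDStmt : Prop := PayStmt → WalkStmt → ∀ (n : ℕ) (S : Fin n → Fin n → Fin n → St), Adm S →
  SymD (D2 S) (D4 S)

/-- Packet SYMKT: the sum is symmetric. -/
def SymKTStmt : Prop := ∀ (α : Type) (D2 D4 : α → α → α → α → α → α → ℤ), SymD D2 D4 →
  ∀ x0 x1 x2 x3 x4 x5 : α,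
  KT D2 D4 x1 x0 x2 x3 x4 x5 = KT D2 D4 x0 x1 x2 x3 x4 x5 ∧
  KT D2 D4 x0 x2 x1 x3 x4 x5 = KT D2 D4 x0 x1 x2 x3 x4 x5 ∧
  KT D2 D4 x0 x1 x3 x2 x4 x5 = KT D2 D4 x0 x1 x2 x3 x4 x5 ∧
  KT D2 D4 x0 x1 x2 x4 x3 x5 = KT D2 D4 x0 x1 x2 x3 x4 x5 ∧
  KT D2 D4 x0 x1 x2 x3 x5 x4 = KT D2 D4 x0 x1 x2 x3 x4 x5

/-- Packet MIN: it suffices to bound the sum for the minimal orderings. -/
def MinStmt : Prop := ∀ (α : Type) (K : α → α → α → α → α → α → ℤ) (Λ : ℤ)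
    (bt ds : α → α → α → α → α → ℕ),
  (∀ x0 x1 x2 x3 x4 x5 : α, K x1 x0 x2 x3 x4 x5 = K x0 x1 x2 x3 x4 x5 ∧
    K x0 x2 x1 x3 x4 x5 = K x0 x1 x2 x3 x4 x5 ∧ K x0 x1 x3 x2 x4 x5 = K x0 x1 x2 x3 x4 x5 ∧
    K x0 x1 x2 x4 x3 x5 = K x0 x1 x2 x3 x4 x5 ∧ K x0 x1 x2 x3 x5 x4 = K x0 x1 x2 x3 x4 x5) →
  (∀ x0 x1 x2 x3 x4 : α, Dis5 x0 x1 x2 x3 x4 →
    bt x1 x0 x2 x3 x4 = bt x0 x1 x2 x3 x4 ∧ bt x0 x2 x1 x3 x4 = bt x0 x1 x2 x3 x4 ∧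
    bt x0 x1 x3 x2 x4 = bt x0 x1 x2 x3 x4 ∧ bt x0 x1 x2 x4 x3 = bt x0 x1 x2 x3 x4) →
  (∀ x0 x1 x2 x3 x4 : α, Dis5 x0 x1 x2 x3 x4 → ds x0 x1 x2 x3 x4 = 0 ∨
    ds x1 x0 x2 x3 x4 < ds x0 x1 x2 x3 x4 ∨ ds x0 x2 x1 x3 x4 < ds x0 x1 x2 x3 x4 ∨
    ds x0 x1 x3 x2 x4 < ds x0 x1 x2 x3 x4 ∨ ds x0 x1 x2 x4 x3 < ds x0 x1 x2 x3 x4) →
  (∀ x0 x1 x2 x3 x4 x5 : α, Dis6 x0 x1 x2 x3 x4 x5 → ds x0 x1 x2 x3 x4 = 0 →
    bt x0 x1 x2 x3 x4 ≤ bt x1 x2 x3 x4 x5 → bt x0 x1 x2 x3 x4 ≤ bt x0 x2 x3 x4 x5 →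
    bt x0 x1 x2 x3 x4 ≤ bt x0 x1 x3 x4 x5 → bt x0 x1 x2 x3 x4 ≤ bt x0 x1 x2 x4 x5 →
    bt x0 x1 x2 x3 x4 ≤ bt x0 x1 x2 x3 x5 → K x0 x1 x2 x3 x4 x5 ≤ Λ) →
  ∀ x0 x1 x2 x3 x4 x5 : α, Dis6 x0 x1 x2 x3 x4 x5 → K x0 x1 x2 x3 x4 x5 ≤ Λ

open Classical in
/-- number of ordered triples of distinct points with `T` -/
def cnt3 {n : ℕ} (T : Fin n → Fin n → Fin n → Prop) : ℕ :=
  Nat.card {t : Fin n × Fin n × Fin n // t.1 ≠ t.2.1 ∧ t.1 ≠ t.2.2 ∧ t.2.1 ≠ t.2.2 ∧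
    T t.1 t.2.1 t.2.2}

/-- Packet AVG: averaging over all six-tuples. -/
def AvgStmt : Prop := ∀ (n : ℕ) (T : Fin n → Fin n → Fin n → Prop) (Λ : ℤ)
    (phi : ℕ → Fin n → Fin n → Fin n → Fin n → ℤ) (ac : Fin n → Fin n → Fin n → Fin n → ℤ)
    (psi : ℕ → Fin n → Fin n → Fin n → Fin n → Fin n → ℤ), 0 ≤ Λ →
  (∀ k p q a b, |phi k p q a b| ≤ 2 ^ 17) → (∀ k a b c d u, |psi k a b c d u| ≤ 2 ^ 17) →
  (∀ p q a b, 0 ≤ ac p q a b) → (∀ p q a b, ac p q a b ≤ 2 ^ 28) →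
  (∀ i j k l : Fin n, i ≠ j → i ≠ k → i ≠ l → j ≠ k → j ≠ l → k ≠ l →
    2 ^ 26 * ((open Classical in if T i j k then (1 : ℤ) else 0) +
      (open Classical in if T i j l then (1 : ℤ) else 0) +
      (open Classical in if T i k l then (1 : ℤ) else 0) +
      (open Classical in if T j k l then (1 : ℤ) else 0)) ≤ ac i j k l) →
  (∀ x0 x1 x2 x3 x4 x5 : Fin n, Dis6 x0 x1 x2 x3 x4 x5 →
    KT (fun p q a b c d => ac p q a b + ac p q c d +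
        ∑ k ∈ Finset.range 11, phi k p q a b * phi k p q c d)
      (fun a b c d u v => ∑ k ∈ Finset.range 11, psi k a b c d u * psi k a b c d v)
      x0 x1 x2 x3 x4 x5 ≤ Λ) →
  360 * 2 ^ 26 * ((n : ℤ) ^ 2 * ((n : ℤ) - 3) * cnt3 T) ≤ Λ * (n : ℤ) ^ 6 + 2 ^ 60 * (n : ℤ) ^ 5

end

end Pool.Agent.Helper86.Ac
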