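import Pool.Agent.Helper86.Acute.Basic

/-! Packed flag vectors and the tables used by the kernel computation. -/

namespace Pool.Agent.Helper86.Ac

open Pool.Agent.Helper86.Acute

/-- A flag vector in its two packed forms. -/
structure F where
  (A B : Nat)

/-- Behaviour of a set of states: `M` is the conjunction over the set, `ka` is the identity if the
state `a` is in the set and constant `true` otherwise. -/
structure MB where
  (M : Bool → Bool → Bool → Bool → Bool)
  (ka kb kc kd : Bool → Bool)

/-- Leaf: distance to the chosen labelling, weight of the class, flags of the five points over the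
other four. -/
structure X5 where
  (ds bt : Nat)
  (g0 g1 g2 g3 g4 : F)

/-- node: allowed states and the children -/
structure N9 where
  (m : MB) (a b c d : X5)
/-- node -/
structure N8 where
  (m : MB) (a b c d : N9)
/-- node -/
structure N7 where
  (m : MB) (a b c d : N8)
/-- node -/
structure N6 where
  (m : MB) (a b c d : N7)
/-- node -/
structure N5 where
  (m : MB) (a b c d : N6)
/-- node -/
structure N4 where
  (m : MB) (a b c d : N5)

/-- Data of a labelled pattern of four points: whether the three adjacent transpositions change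
the signs of the flag vectors, sign vector, the six two-pointed flags, and the tree of the
five-point patterns extending it. -/
structure Pay where
  (t0 t1 t2 : Bool)
  (sg : Nat)
  (f01 f02 f12 f03 f13 f23 : F)
  (dn : N4)

/-- node -/
structure O3 where
  (a b c d : Pay)
/-- node -/
structure O2 where
  (a b c d : O3)
/-- node -/
structure O1 where
  (a b c d : O2)
/-- node -/
structure O0 where
  (a b c d : O1)

/-- choice by a state -/
def N9.sel (t : N9) (s : St) : X5 := St.casesOn s t.a t.b t.c t.d
/-- choice by a state -/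
def N8.sel (t : N8) (s : St) : N9 := St.casesOn s t.a t.b t.c t.d
/-- choice by a state -/
def N7.sel (t : N7) (s : St) : N8 := St.casesOn s t.a t.b t.c t.d
/-- choice by a state -/
def N6.sel (t : N6) (s : St) : N7 := St.casesOn s t.a t.b t.c t.d
/-- choice by a state -/
def N5.sel (t : N5) (s : St) : N6 := St.casesOn s t.a t.b t.c t.d
/-- choice by a state -/
def N4.sel (t : N4) (s : St) : N5 := St.casesOn s t.a t.b t.c t.d
/-- choice by a state -/
def O3.sel (t : O3) (s : St) : Pay := St.casesOn s t.a t.b t.c t.d
/-- choice by a state -/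
def O2.sel (t : O2) (s : St) : O3 := St.casesOn s t.a t.b t.c t.d
/-- choice by a state -/
def O1.sel (t : O1) (s : St) : O2 := St.casesOn s t.a t.b t.c t.d
/-- choice by a state -/
def O0.sel (t : O0) (s : St) : O1 := St.casesOn s t.a t.b t.c t.d

/-- identity -/
def idB (x : Bool) : Bool := x
/-- constant -/
def ctB (_ : Bool) : Bool := true

/-- the set with mask 0 -/
def mb0 : MB := ⟨fun _ _ _ _ => true, ctB, ctB, ctB, ctB⟩
/-- the set with mask 1 -/
def mb1 : MB := ⟨fun x _ _ _ => x, idB, ctB, ctB, ctB⟩
/-- the set with mask 2 -/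
def mb2 : MB := ⟨fun _ y _ _ => y, ctB, idB, ctB, ctB⟩
/-- the set with mask 3 -/
def mb3 : MB := ⟨fun x y _ _ => and x y, idB, idB, ctB, ctB⟩
/-- the set with mask 4 -/
def mb4 : MB := ⟨fun _ _ z _ => z, ctB, ctB, idB, ctB⟩
/-- the set with mask 5 -/
def mb5 : MB := ⟨fun x _ z _ => and x z, idB, ctB, idB, ctB⟩
/-- the set with mask 6 -/
def mb6 : MB := ⟨fun _ y z _ => and y z, ctB, idB, idB, ctB⟩
/-- the set with mask 7 -/
def mb7 : MB := ⟨fun x y z _ => and x (and y z), idB, idB, idB, ctB⟩
/-- the set with mask 8 -/
def mb8 : MB := ⟨fun _ _ _ w => w, ctB, ctB, ctB, idB⟩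
/-- the set with mask 9 -/
def mb9 : MB := ⟨fun x _ _ w => and x w, idB, ctB, ctB, idB⟩
/-- the set with mask 10 -/
def mb10 : MB := ⟨fun _ y _ w => and y w, ctB, idB, ctB, idB⟩
/-- the set with mask 11 -/
def mb11 : MB := ⟨fun x y _ w => and x (and y w), idB, idB, ctB, idB⟩
/-- the set with mask 12 -/
def mb12 : MB := ⟨fun _ _ z w => and z w, ctB, ctB, idB, idB⟩
/-- the set with mask 13 -/
def mb13 : MB := ⟨fun x _ z w => and x (and z w), idB, ctB, idB, idB⟩
/-- the set with mask 14 -/
def mb14 : MB := ⟨fun _ y z w => and y (and z w), ctB, idB, idB, idB⟩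
/-- the set with mask 15 -/
def mb15 : MB := ⟨fun x y z w => and x (and y (and z w)), idB, idB, idB, idB⟩

/-- choice by the bit `k` of `m` -/
def bt (m k : Nat) (x y : MB) : MB := Bool.casesOn (Nat.beq (Nat.land m k) 0) y x

/-- the set with a given mask -/
def mbs (m : Nat) : MB :=
  bt m 8
    (bt m 4 (bt m 2 (bt m 1 mb0 mb1) (bt m 1 mb2 mb3)) (bt m 2 (bt m 1 mb4 mb5) (bt m 1 mb6 mb7)))
    (bt m 4 (bt m 2 (bt m 1 mb8 mb9) (bt m 1 mb10 mb11))
      (bt m 2 (bt m 1 mb12 mb13) (bt m 1 mb14 mb15)))

/-- the set with a given mask, evaluating the mask first -/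
def mbf (m : Nat) : MB := Nat.casesOn m mb0 (fun n => mbs (Nat.succ n))

/-- product of the packed forms -/
def dd (f g : F) : Nat := Nat.mul f.A g.B

/-- Fixed data of a computation: the four-point patterns, the leaf of the first five points, and
the weight. -/
structure Ctx where
  (q0 q1 q2 q3 q4 : Pay)
  (x : X5)

end Pool.Agent.Helper86.Ac
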