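import Pool.Agent.Helper86.Ac.TabF

/-! Reading the trees from their encodings as natural numbers. -/

namespace Pool.Agent.Helper86.Ac

/-- field of 20 bits at position `k` -/
def nx (T k : Nat) : Nat := Nat.land (Nat.shiftRight T k) 1048575

/-- set stored in the lowest four bits -/
def mk (T : Nat) : MB := mbf (Nat.land T 15)

/-- flag vector with a given number, evaluating the number first -/
noncomputable def gFf (i : Nat) : F := Nat.casesOn i (gF 0) (fun n => gF (Nat.succ n))

/-- flag number stored at position `k` -/
noncomputable def rF (T k : Nat) : F := gFf (Nat.land (Nat.shiftRight T k) 2047)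

/-- leaf given by its code -/
noncomputable def dX (T : Nat) : X5 :=
  X5.mk (Nat.land T 15) (Nat.land (Nat.shiftRight T 4) 511)
    (rF T 13) (rF T 24) (rF T 35) (rF T 46) (rF T 57)

/-- node given by its code -/
noncomputable def eN9 (R : Nat) : N9 :=
  N9.mk (mk R) (dX (Nat.land (Nat.shiftRight R 4) 295147905179352825855))
    (dX (Nat.land (Nat.shiftRight R 72) 295147905179352825855))
    (dX (Nat.land (Nat.shiftRight R 140) 295147905179352825855))
    (dX (Nat.shiftRight R 208))

/-- node stored at position `p` -/
noncomputable def dN9 (T p : Nat) : N9 :=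
  eN9 (Nat.land (Nat.shiftRight T p)
    121416805764108066932466369176469931665150427440758720078238275608681517825325531135)

/-- node given by its code -/
noncomputable def eN8 (T R : Nat) : N8 :=
  N8.mk (mk R) (dN9 T (nx R 4)) (dN9 T (nx R 24)) (dN9 T (nx R 44)) (dN9 T (nx R 64))

/-- node stored at position `p` -/
noncomputable def dN8 (T p : Nat) : N8 :=
  eN8 T (Nat.land (Nat.shiftRight T p) 19342813113834066795298815)

/-- node given by its code -/
noncomputable def eN7 (T R : Nat) : N7 :=
  N7.mk (mk R) (dN8 T (nx R 4)) (dN8 T (nx R 24)) (dN8 T (nx R 44)) (dN8 T (nx R 64))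

/-- node stored at position `p` -/
noncomputable def dN7 (T p : Nat) : N7 :=
  eN7 T (Nat.land (Nat.shiftRight T p) 19342813113834066795298815)

/-- node given by its code -/
noncomputable def eN6 (T R : Nat) : N6 :=
  N6.mk (mk R) (dN7 T (nx R 4)) (dN7 T (nx R 24)) (dN7 T (nx R 44)) (dN7 T (nx R 64))

/-- node stored at position `p` -/
noncomputable def dN6 (T p : Nat) : N6 :=
  eN6 T (Nat.land (Nat.shiftRight T p) 19342813113834066795298815)

/-- node given by its code -/
noncomputable def eN5 (T R : Nat) : N5 :=
  N5.mk (mk R) (dN6 T (nx R 4)) (dN6 T (nx R 24)) (dN6 T (nx R 44)) (dN6 T (nx R 64))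

/-- node stored at position `p` -/
noncomputable def dN5 (T p : Nat) : N5 :=
  eN5 T (Nat.land (Nat.shiftRight T p) 19342813113834066795298815)

/-- node given by its code -/
noncomputable def eN4 (T R : Nat) : N4 :=
  N4.mk (mk R) (dN5 T (nx R 4)) (dN5 T (nx R 24)) (dN5 T (nx R 44)) (dN5 T (nx R 64))

/-- node stored at position `p` -/
noncomputable def dN4 (T p : Nat) : N4 :=
  eN4 T (Nat.land (Nat.shiftRight T p) 19342813113834066795298815)

end Pool.Agent.Helper86.Ac
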