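import Pool.Agent.Helper86.Ac.Chk

/-! Kernel computation, part 1. -/

namespace Pool.Agent.Helper86.Ac

theorem raabb : top .a .a .b .b = true := by decide +kernel
theorem rabdc : top .a .b .d .c = true := by decide +kernel
theorem raddc : top .a .d .d .c = true := by decide +kernel
theorem rbbaa : top .b .b .a .a = true := by decide +kernel
theorem rcadc : top .c .a .d .c = true := by decide +kernel
theorem rccdb : top .c .c .d .b = true := by decide +kernel
theorem rdaca : top .d .a .c .a = true := by decide +kernel
theorem rddab : top .d .d .a .b = true := by decide +kernel
theorem rddda : top .d .d .d .a = true := by decide +kernel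

end Pool.Agent.Helper86.Ac
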