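import Pool.Agent.Helper86.Ac.Chk

/-! Kernel computation, part 10. -/

namespace Pool.Agent.Helper86.Ac

theorem rabaa : top .a .b .a .a = true := by decide +kernel
theorem raccc : top .a .c .c .c = true := by decide +kernel
theorem radba : top .a .d .b .a = true := by decide +kernel
theorem rbadd : top .b .a .d .d = true := by decide +kernel
theorem rbcad : top .b .c .a .d = true := by decide +kernel
theorem rccca : top .c .c .c .a = true := by decide +kernel
theorem rcdda : top .c .d .d .a = true := by decide +kernel
theorem rdbcc : top .d .b .c .c = true := by decide +kernel
theorem rdccc : top .d .c .c .c = true := by decide +kernel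
theorem rddbc : top .d .d .b .c = true := by decide +kernel
theorem rdddc : top .d .d .d .c = true := by decide +kernel

end Pool.Agent.Helper86.Ac
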