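import Pool.Agent.Helper86.Ac.Chk

/-! Kernel computation, part 11. -/

namespace Pool.Agent.Helper86.Ac

theorem raada : top .a .a .d .a = true := by decide +kernel
theorem rbaad : top .b .a .a .d = true := by decide +kernel
theorem rbccb : top .b .c .c .b = true := by decide +kernel
theorem rbdad : top .b .d .a .d = true := by decide +kernel
theorem rcaaa : top .c .a .a .a = true := by decide +kernel
theorem rcbba : top .c .b .b .a = true := by decide +kernel
theorem rccdc : top .c .c .d .c = true := by decide +kernel
theorem rcdab : top .c .d .a .b = true := by decide +kernel
theorem rdaab : top .d .a .a .b = true := by decide +kernel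
theorem rddcc : top .d .d .c .c = true := by decide +kernel

end Pool.Agent.Helper86.Ac
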