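import Pool.Agent.Helper86.Ac.Chk

/-! Kernel computation, part 12. -/

namespace Pool.Agent.Helper86.Ac

theorem raacc : top .a .a .c .c = true := by decide +kernel
theorem radab : top .a .d .a .b = true := by decide +kernel
theorem rbbdd : top .b .b .d .d = true := by decide +kernel
theorem rbcab : top .b .c .a .b = true := by decide +kernel
theorem rbcba : top .b .c .b .a = true := by decide +kernel
theorem rccab : top .c .c .a .b = true := by decide +kernel
theorem rccac : top .c .c .a .c = true := by decide +kernel
theorem rdacb : top .d .a .c .b = true := by decide +kernel
theorem rdcab : top .d .c .a .b = true := by decide +kernel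
theorem rdccb : top .d .c .c .b = true := by decide +kernel
theorem rddca : top .d .d .c .a = true := by decide +kernel

end Pool.Agent.Helper86.Ac
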