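import Pool.Agent.Helper86.Ac.Chk

/-! Kernel computation, part 13. -/

namespace Pool.Agent.Helper86.Ac

theorem raaab : top .a .a .a .b = true := by decide +kernel
theorem radbb : top .a .d .b .b = true := by decide +kernel
theorem rbacd : top .b .a .c .d = true := by decide +kernel
theorem rbcbd : top .b .c .b .d = true := by decide +kernel
theorem rcada : top .c .a .d .a = true := by decide +kernel
theorem rcbab : top .c .b .a .b = true := by decide +kernel
theorem rcbdd : top .c .b .d .d = true := by decide +kernel
theorem rdabb : top .d .a .b .b = true := by decide +kernel
theorem rdadc : top .d .a .d .c = true := by decide +kernel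
theorem rdbbc : top .d .b .b .c = true := by decide +kernel

end Pool.Agent.Helper86.Ac
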