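import Pool.Agent.Helper86.Ac.Chk

/-! Kernel computation, part 14. -/

namespace Pool.Agent.Helper86.Ac

theorem raaca : top .a .a .c .a = true := by decide +kernel
theorem racca : top .a .c .c .a = true := by decide +kernel
theorem rbacc : top .b .a .c .c = true := by decide +kernel
theorem rbbac : top .b .b .a .c = true := by decide +kernel
theorem rbbca : top .b .b .c .a = true := by decide +kernel
theorem rbbcd : top .b .b .c .d = true := by decide +kernel
theorem rcbcc : top .c .b .c .c = true := by decide +kernel
theorem rcbda : top .c .b .d .a = true := by decide +kernel
theorem rccaa : top .c .c .a .a = true := by decide +kernel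
theorem rdcbb : top .d .c .b .b = true := by decide +kernel
theorem rddba : top .d .d .b .a = true := by decide +kernel

end Pool.Agent.Helper86.Ac
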