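import Pool.Agent.Helper86.Ac.Chk

/-! Kernel computation, the patterns that do not occur. -/

namespace Pool.Agent.Helper86.Ac

theorem raaaa : top .a .a .a .a = true := by decide +kernel
theorem raabc : top .a .a .b .c = true := by decide +kernel
theorem raabd : top .a .a .b .d = true := by decide +kernel
theorem raacb : top .a .a .c .b = true := by decide +kernel
theorem raadb : top .a .a .d .b = true := by decide +kernel
theorem rabab : top .a .b .a .b = true := by decide +kernel
theorem rabad : top .a .b .a .d = true := by decide +kernel
theorem rabbd : top .a .b .b .d = true := by decide +kernel
theorem rabca : top .a .b .c .a = true := by decide +kernel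
theorem rabcb : top .a .b .c .b = true := by decide +kernel
theorem rabcd : top .a .b .c .d = true := by decide +kernel
theorem rabdb : top .a .b .d .b = true := by decide +kernel
theorem racac : top .a .c .a .c = true := by decide +kernel
theorem racba : top .a .c .b .a = true := by decide +kernel
theorem racbc : top .a .c .b .c = true := by decide +kernel
theorem racbd : top .a .c .b .d = true := by decide +kernel
theorem racda : top .a .c .d .a = true := by decide +kernel
theorem racdb : top .a .c .d .b = true := by decide +kernel
theorem racdc : top .a .c .d .c = true := by decide +kernel
theorem radac : top .a .d .a .c = true := by decide +kernel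
theorem radbc : top .a .d .b .c = true := by decide +kernel
theorem radca : top .a .d .c .a = true := by decide +kernel
theorem radcb : top .a .d .c .b = true := by decide +kernel
theorem radcc : top .a .d .c .c = true := by decide +kernel
theorem rbaab : top .b .a .a .b = true := by decide +kernel
theorem rbaac : top .b .a .a .c = true := by decide +kernel
theorem rbabc : top .b .a .b .c = true := by decide +kernel
theorem rbacb : top .b .a .c .b = true := by decide +kernel
theorem rbada : top .b .a .d .a = true := by decide +kernel
theorem rbadb : top .b .a .d .b = true := by decide +kernel
theorem rbadc : top .b .a .d .c = true := by decide +kernel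
theorem rbbab : top .b .b .a .b = true := by decide +kernel
theorem rbbcb : top .b .b .c .b = true := by decide +kernel
theorem rbbdb : top .b .b .d .b = true := by decide +kernel
theorem rbcac : top .b .c .a .c = true := by decide +kernel
theorem rbcbc : top .b .c .b .c = true := by decide +kernel
theorem rbccd : top .b .c .c .d = true := by decide +kernel
theorem rbcda : top .b .c .d .a = true := by decide +kernel
theorem rbcdb : top .b .c .d .b = true := by decide +kernel
theorem rbcdc : top .b .c .d .c = true := by decide +kernel
theorem rbdaa : top .b .d .a .a = true := by decide +kernel
theorem rbdab : top .b .d .a .b = true := by decide +kernel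
theorem rbdac : top .b .d .a .c = true := by decide +kernel
theorem rbdbc : top .b .d .b .c = true := by decide +kernel
theorem rbdca : top .b .d .c .a = true := by decide +kernel
theorem rbdcb : top .b .d .c .b = true := by decide +kernel
theorem rbdcc : top .b .d .c .c = true := by decide +kernel
theorem rbdda : top .b .d .d .a = true := by decide +kernel
theorem rbddb : top .b .d .d .b = true := by decide +kernel
theorem rbddc : top .b .d .d .c = true := by decide +kernel
theorem rcaad : top .c .a .a .d = true := by decide +kernel
theorem rcaba : top .c .a .b .a = true := by decide +kernel
theorem rcabc : top .c .a .b .c = true := by decide +kernel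
theorem rcabd : top .c .a .b .d = true := by decide +kernel
theorem rcaca : top .c .a .c .a = true := by decide +kernel
theorem rcacb : top .c .a .c .b = true := by decide +kernel
theorem rcacd : top .c .a .c .d = true := by decide +kernel
theorem rcbad : top .c .b .a .d = true := by decide +kernel
theorem rcbbd : top .c .b .b .d = true := by decide +kernel
theorem rcbca : top .c .b .c .a = true := by decide +kernel
theorem rcbcb : top .c .b .c .b = true := by decide +kernel
theorem rcbcd : top .c .b .c .d = true := by decide +kernel
theorem rcbdc : top .c .b .d .c = true := by decide +kernel
theorem rccba : top .c .c .b .a = true := by decide +kernel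
theorem rccbc : top .c .c .b .c = true := by decide +kernel
theorem rccbd : top .c .c .b .d = true := by decide +kernel
theorem rcdaa : top .c .d .a .a = true := by decide +kernel
theorem rcdac : top .c .d .a .c = true := by decide +kernel
theorem rcdad : top .c .d .a .d = true := by decide +kernel
theorem rcdba : top .c .d .b .a = true := by decide +kernel
theorem rcdbc : top .c .d .b .c = true := by decide +kernel
theorem rcdbd : top .c .d .b .d = true := by decide +kernel
theorem rcdca : top .c .d .c .a = true := by decide +kernel
theorem rcdcb : top .c .d .c .b = true := by decide +kernel
theorem rcdcc : top .c .d .c .c = true := by decide +kernel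
theorem rcdcd : top .c .d .c .d = true := by decide +kernel
theorem rdaad : top .d .a .a .d = true := by decide +kernel
theorem rdabd : top .d .a .b .d = true := by decide +kernel
theorem rdada : top .d .a .d .a = true := by decide +kernel
theorem rdadb : top .d .a .d .b = true := by decide +kernel
theorem rdadd : top .d .a .d .d = true := by decide +kernel
theorem rdbaa : top .d .b .a .a = true := by decide +kernel
theorem rdbab : top .d .b .a .b = true := by decide +kernel
theorem rdbad : top .d .b .a .d = true := by decide +kernel
theorem rdbbd : top .d .b .b .d = true := by decide +kernel
theorem rdbca : top .d .b .c .a = true := by decide +kernel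
theorem rdbcb : top .d .b .c .b = true := by decide +kernel
theorem rdbcd : top .d .b .c .d = true := by decide +kernel
theorem rdbda : top .d .b .d .a = true := by decide +kernel
theorem rdbdb : top .d .b .d .b = true := by decide +kernel
theorem rdbdd : top .d .b .d .d = true := by decide +kernel
theorem rdcaa : top .d .c .a .a = true := by decide +kernel
theorem rdcac : top .d .c .a .c = true := by decide +kernel
theorem rdcad : top .d .c .a .d = true := by decide +kernel
theorem rdcba : top .d .c .b .a = true := by decide +kernel
theorem rdcbc : top .d .c .b .c = true := by decide +kernel
theorem rdcbd : top .d .c .b .d = true := by decide +kernel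
theorem rdcda : top .d .c .d .a = true := by decide +kernel
theorem rdcdb : top .d .c .d .b = true := by decide +kernel
theorem rdcdc : top .d .c .d .c = true := by decide +kernel
theorem rdcdd : top .d .c .d .d = true := by decide +kernel
theorem rddbb : top .d .d .b .b = true := by decide +kernel

end Pool.Agent.Helper86.Ac
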