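import Pool.Agent.Helper86.Ac.Chk

/-! Kernel computation, part 2. -/

namespace Pool.Agent.Helper86.Ac

theorem rabdd : top .a .b .d .d = true := by decide +kernel
theorem racaa : top .a .c .a .a = true := by decide +kernel
theorem rbbad : top .b .b .a .d = true := by decide +kernel
theorem rbbba : top .b .b .b .a = true := by decide +kernel
theorem rbddd : top .b .d .d .d = true := by decide +kernel
theorem rcabb : top .c .a .b .b = true := by decide +kernel
theorem rcbaa : top .c .b .a .a = true := by decide +kernel
theorem rdacc : top .d .a .c .c = true := by decide +kernel
theorem rdccd : top .d .c .c .d = true := by decide +kernel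

end Pool.Agent.Helper86.Ac
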