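import Pool.Agent.Helper86.Ac.Chk

/-! Kernel computation, part 3. -/

namespace Pool.Agent.Helper86.Ac

theorem rabcc : top .a .b .c .c = true := by decide +kernel
theorem raccd : top .a .c .c .d = true := by decide +kernel
theorem radbd : top .a .d .b .d = true := by decide +kernel
theorem rbaca : top .b .a .c .a = true := by decide +kernel
theorem rbdbb : top .b .d .b .b = true := by decide +kernel
theorem rcaac : top .c .a .a .c = true := by decide +kernel
theorem rcddd : top .c .d .d .d = true := by decide +kernel
theorem rdaba : top .d .a .b .a = true := by decide +kernel
theorem rdddb : top .d .d .d .b = true := by decide +kernel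

end Pool.Agent.Helper86.Ac
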