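import Pool.Agent.Helper86.Ac.Chk

/-! Kernel computation, part 4. -/

namespace Pool.Agent.Helper86.Ac

theorem raaad : top .a .a .a .d = true := by decide +kernel
theorem raadc : top .a .a .d .c = true := by decide +kernel
theorem racab : top .a .c .a .b = true := by decide +kernel
theorem rbabb : top .b .a .b .b = true := by decide +kernel
theorem rbbbc : top .b .b .b .c = true := by decide +kernel
theorem rcadb : top .c .a .d .b = true := by decide +kernel
theorem rcbac : top .c .b .a .c = true := by decide +kernel
theorem rdaaa : top .d .a .a .a = true := by decide +kernel
theorem rddaa : top .d .d .a .a = true := by decide +kernel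
theorem rddcb : top .d .d .c .b = true := by decide +kernel

end Pool.Agent.Helper86.Ac
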