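import Pool.Agent.Helper86.Ac.Chk

/-! Kernel computation, part 5. -/

namespace Pool.Agent.Helper86.Ac

theorem raaba : top .a .a .b .a = true := by decide +kernel
theorem rabbc : top .a .b .b .c = true := by decide +kernel
theorem racad : top .a .c .a .d = true := by decide +kernel
theorem radaa : top .a .d .a .a = true := by decide +kernel
theorem rbbbd : top .b .b .b .d = true := by decide +kernel
theorem rbbda : top .b .b .d .a = true := by decide +kernel
theorem rbcdd : top .b .c .d .d = true := by decide +kernel
theorem rcbbb : top .c .b .b .b = true := by decide +kernel
theorem rcccb : top .c .c .c .b = true := by decide +kernel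
theorem rcccc : top .c .c .c .c = true := by decide +kernel
theorem rddad : top .d .d .a .d = true := by decide +kernel

end Pool.Agent.Helper86.Ac
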