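import Pool.Agent.Helper86.Ac.Chk

/-! Kernel computation, part 6. -/

namespace Pool.Agent.Helper86.Ac

theorem rabda : top .a .b .d .a = true := by decide +kernel
theorem raccb : top .a .c .c .b = true := by decide +kernel
theorem rbaaa : top .b .a .a .a = true := by decide +kernel
theorem rbbcc : top .b .b .c .c = true := by decide +kernel
theorem rbdbd : top .b .d .b .d = true := by decide +kernel
theorem rbdcd : top .b .d .c .d = true := by decide +kernel
theorem rcddb : top .c .d .d .b = true := by decide +kernel
theorem rdbac : top .d .b .a .c = true := by decide +kernel
theorem rdbba : top .d .b .b .a = true := by decide +kernel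
theorem rdcca : top .d .c .c .a = true := by decide +kernel

end Pool.Agent.Helper86.Ac
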