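import Pool.Agent.Helper86.Ac.Chk

/-! Kernel computation, part 7. -/

namespace Pool.Agent.Helper86.Ac

theorem raacd : top .a .a .c .d = true := by decide +kernel
theorem racbb : top .a .c .b .b = true := by decide +kernel
theorem radad : top .a .d .a .d = true := by decide +kernel
theorem radcd : top .a .d .c .d = true := by decide +kernel
theorem rbabd : top .b .a .b .d = true := by decide +kernel
theorem rbbbb : top .b .b .b .b = true := by decide +kernel
theorem rbcaa : top .b .c .a .a = true := by decide +kernel
theorem rcbdb : top .c .b .d .b = true := by decide +kernel
theorem rccbb : top .c .c .b .b = true := by decide +kernel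
theorem rddbd : top .d .d .b .d = true := by decide +kernel
theorem rddcd : top .d .d .c .d = true := by decide +kernel

end Pool.Agent.Helper86.Ac
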