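import Pool.Agent.Helper86.Ac.Chk

/-! Kernel computation, part 8. -/

namespace Pool.Agent.Helper86.Ac

theorem rabba : top .a .b .b .a = true := by decide +kernel
theorem raddd : top .a .d .d .d = true := by decide +kernel
theorem rbcca : top .b .c .c .a = true := by decide +kernel
theorem rbccc : top .b .c .c .c = true := by decide +kernel
theorem rbdba : top .b .d .b .a = true := by decide +kernel
theorem rcacc : top .c .a .c .c = true := by decide +kernel
theorem rcbbc : top .c .b .b .c = true := by decide +kernel
theorem rccda : top .c .c .d .a = true := by decide +kernel
theorem rdabc : top .d .a .b .c = true := by decide +kernel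
theorem rdacd : top .d .a .c .d = true := by decide +kernel

end Pool.Agent.Helper86.Ac
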