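import Pool.Agent.Helper86.Ac.Chk

/-! Kernel computation, part 9. -/

namespace Pool.Agent.Helper86.Ac

theorem raaac : top .a .a .a .c = true := by decide +kernel
theorem rabac : top .a .b .a .c = true := by decide +kernel
theorem racdd : top .a .c .d .d = true := by decide +kernel
theorem radda : top .a .d .d .a = true := by decide +kernel
theorem rbbdc : top .b .b .d .c = true := by decide +kernel
theorem rbcbb : top .b .c .b .b = true := by decide +kernel
theorem rccad : top .c .c .a .d = true := by decide +kernel
theorem rcccd : top .c .c .c .d = true := by decide +kernel
theorem rcdbb : top .c .d .b .b = true := by decide +kernel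
theorem rddac : top .d .d .a .c = true := by decide +kernel
theorem rdddd : top .d .d .d .d = true := by decide +kernel

end Pool.Agent.Helper86.Ac
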