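import Pool.Agent.Helper86.Ac.Run0
import Pool.Agent.Helper86.Ac.Run1
import Pool.Agent.Helper86.Ac.Run2
import Pool.Agent.Helper86.Ac.Run3
import Pool.Agent.Helper86.Ac.Run4
import Pool.Agent.Helper86.Ac.Run5
import Pool.Agent.Helper86.Ac.Run6
import Pool.Agent.Helper86.Ac.Run7
import Pool.Agent.Helper86.Ac.Run8
import Pool.Agent.Helper86.Ac.Run9
import Pool.Agent.Helper86.Ac.Run10
import Pool.Agent.Helper86.Ac.Run11
import Pool.Agent.Helper86.Ac.Run12
import Pool.Agent.Helper86.Ac.Run13
import Pool.Agent.Helper86.Ac.Run14
import Pool.Agent.Helper86.Ac.Run15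
import Pool.Agent.Helper86.Ac.Run16

/-! All parts together. -/

namespace Pool.Agent.Helper86.Ac

open Pool.Agent.Helper86.Acute

theorem top_all (s1 s2 s3 s4 : St) : top s1 s2 s3 s4 = true := by
  cases s1 <;> cases s2 <;> cases s3 <;> cases s4
  · exact raaaa
  · exact raaab
  · exact raaac
  · exact raaad
  · exact raaba
  · exact raabb
  · exact raabc
  · exact raabd
  · exact raaca
  · exact raacb
  · exact raacc
  · exact raacd
  · exact raada
  · exact raadb
  · exact raadc
  · exact raadd
  · exact rabaa
  · exact rabab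
  · exact rabac
  · exact rabad
  · exact rabba
  · exact rabbb
  · exact rabbc
  · exact rabbd
  · exact rabca
  · exact rabcb
  · exact rabcc
  · exact rabcd
  · exact rabda
  · exact rabdb
  · exact rabdc
  · exact rabdd
  · exact racaa
  · exact racab
  · exact racac
  · exact racad
  · exact racba
  · exact racbb
  · exact racbc
  · exact racbd
  · exact racca
  · exact raccb
  · exact raccc
  · exact raccd
  · exact racda
  · exact racdb
  · exact racdc
  · exact racdd
  · exact radaa
  · exact radab
  · exact radac
  · exact radad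
  · exact radba
  · exact radbb
  · exact radbc
  · exact radbd
  · exact radca
  · exact radcb
  · exact radcc
  · exact radcd
  · exact radda
  · exact raddb
  · exact raddc
  · exact raddd
  · exact rbaaa
  · exact rbaab
  · exact rbaac
  · exact rbaad
  · exact rbaba
  · exact rbabb
  · exact rbabc
  · exact rbabd
  · exact rbaca
  · exact rbacb
  · exact rbacc
  · exact rbacd
  · exact rbada
  · exact rbadb
  · exact rbadc
  · exact rbadd
  · exact rbbaa
  · exact rbbab
  · exact rbbac
  · exact rbbad
  · exact rbbba
  · exact rbbbb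
  · exact rbbbc
  · exact rbbbd
  · exact rbbca
  · exact rbbcb
  · exact rbbcc
  · exact rbbcd
  · exact rbbda
  · exact rbbdb
  · exact rbbdc
  · exact rbbdd
  · exact rbcaa
  · exact rbcab
  · exact rbcac
  · exact rbcad
  · exact rbcba
  · exact rbcbb
  · exact rbcbc
  · exact rbcbd
  · exact rbcca
  · exact rbccb
  · exact rbccc
  · exact rbccd
  · exact rbcda
  · exact rbcdb
  · exact rbcdc
  · exact rbcdd
  · exact rbdaa
  · exact rbdab
  · exact rbdac
  · exact rbdad
  · exact rbdba
  · exact rbdbb
  · exact rbdbc
  · exact rbdbd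
  · exact rbdca
  · exact rbdcb
  · exact rbdcc
  · exact rbdcd
  · exact rbdda
  · exact rbddb
  · exact rbddc
  · exact rbddd
  · exact rcaaa
  · exact rcaab
  · exact rcaac
  · exact rcaad
  · exact rcaba
  · exact rcabb
  · exact rcabc
  · exact rcabd
  · exact rcaca
  · exact rcacb
  · exact rcacc
  · exact rcacd
  · exact rcada
  · exact rcadb
  · exact rcadc
  · exact rcadd
  · exact rcbaa
  · exact rcbab
  · exact rcbac
  · exact rcbad
  · exact rcbba
  · exact rcbbb
  · exact rcbbc
  · exact rcbbd
  · exact rcbca
  · exact rcbcb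
  · exact rcbcc
  · exact rcbcd
  · exact rcbda
  · exact rcbdb
  · exact rcbdc
  · exact rcbdd
  · exact rccaa
  · exact rccab
  · exact rccac
  · exact rccad
  · exact rccba
  · exact rccbb
  · exact rccbc
  · exact rccbd
  · exact rccca
  · exact rcccb
  · exact rcccc
  · exact rcccd
  · exact rccda
  · exact rccdb
  · exact rccdc
  · exact rccdd
  · exact rcdaa
  · exact rcdab
  · exact rcdac
  · exact rcdad
  · exact rcdba
  · exact rcdbb
  · exact rcdbc
  · exact rcdbd
  · exact rcdca
  · exact rcdcb
  · exact rcdcc
  · exact rcdcd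
  · exact rcdda
  · exact rcddb
  · exact rcddc
  · exact rcddd
  · exact rdaaa
  · exact rdaab
  · exact rdaac
  · exact rdaad
  · exact rdaba
  · exact rdabb
  · exact rdabc
  · exact rdabd
  · exact rdaca
  · exact rdacb
  · exact rdacc
  · exact rdacd
  · exact rdada
  · exact rdadb
  · exact rdadc
  · exact rdadd
  · exact rdbaa
  · exact rdbab
  · exact rdbac
  · exact rdbad
  · exact rdbba
  · exact rdbbb
  · exact rdbbc
  · exact rdbbd
  · exact rdbca
  · exact rdbcb
  · exact rdbcc
  · exact rdbcd
  · exact rdbda
  · exact rdbdb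
  · exact rdbdc
  · exact rdbdd
  · exact rdcaa
  · exact rdcab
  · exact rdcac
  · exact rdcad
  · exact rdcba
  · exact rdcbb
  · exact rdcbc
  · exact rdcbd
  · exact rdcca
  · exact rdccb
  · exact rdccc
  · exact rdccd
  · exact rdcda
  · exact rdcdb
  · exact rdcdc
  · exact rdcdd
  · exact rddaa
  · exact rddab
  · exact rddac
  · exact rddad
  · exact rddba
  · exact rddbb
  · exact rddbc
  · exact rddbd
  · exact rddca
  · exact rddcb
  · exact rddcc
  · exact rddcd
  · exact rddda
  · exact rdddb
  · exact rdddc
  · exact rdddd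

end Pool.Agent.Helper86.Ac
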