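import Mathlib
import Pool.Agent.Helper86.Ac.Goals
import Pool.Agent.Helper86.Ac.RunAll
import Pool.Agent.Helper86.Acute.Geo

/-! Assembly. -/

namespace Pool.Agent.Helper86.Ac

open Pool.Agent.Helper86.Acute Filter Topology

/-- a generic configuration is admissible -/
theorem adm_of_gen (hgeo : GeoStmt) (hfive : FiveStmt) {n : ℕ} {X Y : Fin n → ℝ} (h : Gen X Y) :
    Adm (st X Y) := by
  obtain ⟨h12, h23, h4⟩ := hgeo n X Y h
  refine ⟨h12, h23, fun i j k l a b c d e f => ⟨_, _, _, _, h4 i j k l a b c d e f⟩, ?_⟩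
  intro w0 w1 w2 w3 w4 hd
  obtain ⟨h01, h02, h03, h04, h12', h13, h14, h23', h24, h34⟩ := hd
  exact hfive (cd (st X Y) w0 w1 w2 w3 w4) _ _ _ _ _ _ _ _ _ _
    (h4 w0 w1 w2 w3 h01 h02 h03 h12' h13 h23')
    (h4 w0 w1 w2 w4 h01 h02 h04 h12' h14 h24)
    (h4 w0 w1 w3 w4 h01 h03 h04 h13 h14 h34)
    (h4 w0 w2 w3 w4 h02 h03 h04 h23' h24 h34)
    (h4 w1 w2 w3 w4 h12' h13 h14 h23' h24 h34)

theorem goodP (hpay : PayStmt) (s1 s2 s3 s4 : St) : GoodP (oL s1 s2 s3 s4) := by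
  obtain ⟨h1, h2, h3, h4, h5, h6, -⟩ := hpay s1 s2 s3 s4
  refine ⟨h1, ?_, ?_, ?_, ?_, ?_⟩
  · rw [h2]; exact (hpay _ _ _ _).1
  · rw [h3]; exact (hpay _ _ _ _).1
  · rw [h4]; exact (hpay _ _ _ _).1
  · rw [h5]; exact (hpay _ _ _ _).1
  · rw [h6]; exact (hpay _ _ _ _).1

theorem good_bound {f : F} (h : Good f) {k : ℕ} (hk : k < 11) : |rr f k| ≤ 2 ^ 17 := by
  have := h.2.2.1 k hk
  unfold rr
  rw [abs_le]
  constructor <;> omega

/-- the bound for minimal orderings -/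
theorem bound0 (hpay : PayStmt) (hwalk : WalkStmt) (hsound : SoundStmt) (hkron : KronStmt)
    (hsum : SumStmt) {n : ℕ} {S : Fin n → Fin n → Fin n → St} (hS : Adm S)
    {x0 x1 x2 x3 x4 x5 : Fin n} (hd : Dis6 x0 x1 x2 x3 x4 x5)
    (h0 : (cd S x0 x1 x2 x3 x4).leaf.ds = 0)
    (b0 : (cd S x0 x1 x2 x3 x4).leaf.bt ≤ (cd S x1 x2 x3 x4 x5).leaf.bt)
    (b1 : (cd S x0 x1 x2 x3 x4).leaf.bt ≤ (cd S x0 x2 x3 x4 x5).leaf.bt)
    (b2 : (cd S x0 x1 x2 x3 x4).leaf.bt ≤ (cd S x0 x1 x3 x4 x5).leaf.bt)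
    (b3 : (cd S x0 x1 x2 x3 x4).leaf.bt ≤ (cd S x0 x1 x2 x4 x5).leaf.bt)
    (b4 : (cd S x0 x1 x2 x3 x4).leaf.bt ≤ (cd S x0 x1 x2 x3 x5).leaf.bt) :
    KT (D2 S) (D4 S) x0 x1 x2 x3 x4 x5 ≤ 13475945715 := by
  have hd' := hd
  obtain ⟨h01, h02, h03, h04, h05, h12, h13, h14, h15, h23, h24, h25, h34, h35, h45⟩ := hd
  have m := hS.h5 x0 x1 x2 x3 x4 ⟨h01, h02, h03, h04, h12, h13, h14, h23, h24, h34⟩
  have m0 := hS.h5 x1 x2 x3 x4 x5 ⟨h12, h13, h14, h15, h23, h24, h25, h34, h35, h45⟩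
  have m1 := hS.h5 x0 x2 x3 x4 x5 ⟨h02, h03, h04, h05, h23, h24, h25, h34, h35, h45⟩
  have m2 := hS.h5 x0 x1 x3 x4 x5 ⟨h01, h03, h04, h05, h13, h14, h15, h34, h35, h45⟩
  have m3 := hS.h5 x0 x1 x2 x4 x5 ⟨h01, h02, h04, h05, h12, h14, h15, h24, h25, h45⟩
  have m4 := hS.h5 x0 x1 x2 x3 x5 ⟨h01, h02, h03, h05, h12, h13, h15, h23, h25, h35⟩
  have hs := hsound (S x0 x1 x2) (S x0 x1 x3) (S x0 x2 x3) (S x1 x2 x3) (S x0 x1 x4) (S x0 x2 x4)
    (S x1 x2 x4) (S x0 x3 x4) (S x1 x3 x4) (S x2 x3 x4) (S x0 x1 x5) (S x0 x2 x5) (S x1 x2 x5)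
    (S x0 x3 x5) (S x1 x3 x5) (S x2 x3 x5) (S x0 x4 x5) (S x1 x4 x5) (S x2 x4 x5) (S x3 x4 x5)
    (top_all _ _ _ _) m h0 m0 b0 m1 b1 m2 b2 m3 b3 m4 b4
  have hk := hkron (Ctx.mk _ _ _ _ _ _) _ _ _ _ _ _ _ _ _ _ _ _ _ _ _
    (goodP hpay _ _ _ _) (goodP hpay _ _ _ _) (goodP hpay _ _ _ _) (goodP hpay _ _ _ _)
    (goodP hpay _ _ _ _) (hwalk _ m).1.1
    (goodP hpay _ _ _ _) (goodP hpay _ _ _ _) (goodP hpay _ _ _ _) (goodP hpay _ _ _ _)
    (goodP hpay _ _ _ _) (goodP hpay _ _ _ _) (goodP hpay _ _ _ _) (goodP hpay _ _ _ _)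
    (goodP hpay _ _ _ _) (goodP hpay _ _ _ _)
    (hwalk _ m0).1.1 (hwalk _ m1).1.1 (hwalk _ m2).1.1 (hwalk _ m3).1.1 (hwalk _ m4).1.1 hs
  have he := hsum hpay hwalk n S hS x0 x1 x2 x3 x4 x5 hd'
  rw [← he]
  exact hk

theorem cd_t0 {n : ℕ} {S : Fin n → Fin n → Fin n → St} (hS : Adm S) (a b c d e : Fin n) :
    (cd S a b c d e).t0 = cd S b a c d e := by
  simp only [cd, C5.t0, ← hS.h12]

theorem cd_t1 {n : ℕ} {S : Fin n → Fin n → Fin n → St} (hS : Adm S) (a b c d e : Fin n) :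
    (cd S a b c d e).t1 = cd S a c b d e := by
  simp only [cd, C5.t1, ← hS.h12, ← hS.h23]

theorem cd_t2 {n : ℕ} {S : Fin n → Fin n → Fin n → St} (hS : Adm S) (a b c d e : Fin n) :
    (cd S a b c d e).t2 = cd S a b d c e := by
  simp only [cd, C5.t2, ← hS.h12, ← hS.h23]

theorem cd_t3 {n : ℕ} {S : Fin n → Fin n → Fin n → St} (hS : Adm S) (a b c d e : Fin n) :
    (cd S a b c d e).t3 = cd S a b c e d := by
  simp only [cd, C5.t3, ← hS.h23]

/-- the bound for all orderings -/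
theorem bound1 (hpay : PayStmt) (hwalk : WalkStmt) (hsound : SoundStmt) (hkron : KronStmt)
    (hsum : SumStmt) (hsymd : SymDStmt) (hsymkt : SymKTStmt) (hmin : MinStmt)
    {n : ℕ} {S : Fin n → Fin n → Fin n → St} (hS : Adm S) (x0 x1 x2 x3 x4 x5 : Fin n)
    (hd : Dis6 x0 x1 x2 x3 x4 x5) :
    KT (D2 S) (D4 S) x0 x1 x2 x3 x4 x5 ≤ 13475945715 := by
  refine hmin (Fin n) (KT (D2 S) (D4 S)) 13475945715
    (fun a b c d e => (cd S a b c d e).leaf.bt) (fun a b c d e => (cd S a b c d e).leaf.ds)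
    (hsymkt _ _ _ (hsymd hpay hwalk n S hS)) ?_ ?_ ?_ x0 x1 x2 x3 x4 x5 hd
  · intro a b c d e h
    have := (hwalk _ (hS.h5 a b c d e h)).2.1
    rw [cd_t0 hS, cd_t1 hS, cd_t2 hS, cd_t3 hS] at this
    exact this
  · intro a b c d e h
    have := (hwalk _ (hS.h5 a b c d e h)).2.2.1
    rw [cd_t0 hS, cd_t1 hS, cd_t2 hS, cd_t3 hS] at this
    exact this
  · intro a b c d e f h h0 b0 b1 b2 b3 b4
    exact bound0 hpay hwalk hsound hkron hsum hS h h0 b0 b1 b2 b3 b4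

/-- cut off at 11 -/
noncomputable def phi' {n : ℕ} (S : Fin n → Fin n → Fin n → St) (k : ℕ) (p q a b : Fin n) : ℤ :=
  if k < 11 then phi S k p q a b else 0

/-- cut off at 11 -/
noncomputable def psi' {n : ℕ} (S : Fin n → Fin n → Fin n → St) (k : ℕ) (a b c d u : Fin n) : ℤ :=
  if k < 11 then psi S k a b c d u else 0

/-- the averaged inequality -/
theorem bound2 (hpay : PayStmt) (hwalk : WalkStmt) (hsound : SoundStmt) (hkron : KronStmt)
    (hsum : SumStmt) (hsymd : SymDStmt) (hsymkt : SymKTStmt) (hmin : MinStmt) (havg : AvgStmt)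
    {n : ℕ} {S : Fin n → Fin n → Fin n → St} (hS : Adm S) :
    360 * 2 ^ 26 * ((n : ℤ) ^ 2 * ((n : ℤ) - 3) * cnt3 (fun i j k => S i j k = .a)) ≤
      13475945715 * (n : ℤ) ^ 6 + 2 ^ 60 * (n : ℤ) ^ 5 := by
  refine havg n (fun i j k => S i j k = .a) 13475945715 (phi' S) (acs S) (psi' S) (by norm_num)
    ?_ ?_ ?_ ?_ ?_ ?_
  · intro k p q a b
    unfold phi'
    split_ifs with hk
    · exact good_bound (hpay _ _ _ _).1 hk
    · norm_num
  · intro k a b c d u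
    unfold psi'
    split_ifs with hk
    · unfold psi
      split_ifs with h
      · exact good_bound (hwalk _ (hS.h5 a b c d u h)).1.1.2.2.2.2 hk
      · norm_num
    · norm_num
  · intro p q a b
    exact (hpay _ _ _ _).2.2.2.2.2.2.2.2.2.1
  · intro p q a b
    exact (hpay _ _ _ _).2.2.2.2.2.2.2.2.2.2.1
  · intro i j k l h1 h2 h3 h4 h5 h6
    obtain ⟨b1, b2, b3, b4, hb⟩ := hS.h4 i j k l h1 h2 h3 h4 h5 h6
    have := (hpay _ _ _ _).2.2.2.2.2.2.2.2.2.2.2 b1 b2 b3 b4 hb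
    have hi : ∀ s : St, (open Classical in if s = .a then (1 : ℤ) else 0) = isA s := by
      intro s; cases s <;> simp [isA]
    simp only [hi]
    exact this.ge
  · intro x0 x1 x2 x3 x4 x5 hd
    have h := bound1 hpay hwalk hsound hkron hsum hsymd hsymkt hmin hS x0 x1 x2 x3 x4 x5 hd
    have e2 : (fun p q a b c d => acs S p q a b + acs S p q c d +
        ∑ k ∈ Finset.range 11, phi' S k p q a b * phi' S k p q c d) = D2 S := by
      funext p q a b c d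
      unfold D2
      have : ∑ k ∈ Finset.range 11, phi' S k p q a b * phi' S k p q c d =
          ∑ k ∈ Finset.range 11, phi S k p q a b * phi S k p q c d := by
        refine Finset.sum_congr rfl fun k hk => ?_
        simp only [phi', if_pos (Finset.mem_range.1 hk)]
      rw [this]
    have e4 : (fun a b c d u v => ∑ k ∈ Finset.range 11, psi' S k a b c d u * psi' S k a b c d v) =
        D4 S := by
      funext a b c d u v
      unfold D4
      refine Finset.sum_congr rfl fun k hk => ?_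
      simp only [psi', if_pos (Finset.mem_range.1 hk)]
    rw [e2, e4]
    exact h

theorem cnt3_le {n : ℕ} (T : Fin n → Fin n → Fin n → Prop) : cnt3 T ≤ n ^ 3 := by
  unfold cnt3
  calc _ ≤ Nat.card (Fin n × Fin n × Fin n) := Nat.card_le_card_of_injective _ Subtype.val_injective
    _ = n ^ 3 := by simp; ring

theorem main (hgeo : GeoStmt) (hpert : PertStmt) (hfin : PertStmt → FinStmt) (hfive : FiveStmt)
    (hpay : PayStmt) (hwalk : WalkStmt) (hsound : SoundStmt) (hkron : KronStmt)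
    (hsum : SumStmt) (hsymd : SymDStmt) (hsymkt : SymKTStmt) (hmin : MinStmt) (havg : AvgStmt) :
    ∃ L : ℝ, Tendsto minProp atTop (𝓝 L) ∧ (0.1474 : ℝ) ≤ L := by
  obtain ⟨L, h1, h2⟩ := hfin hpert (13475945715 / (360 * 2 ^ 26))
    ((2 ^ 60 + 3 * (360 * 2 ^ 26)) / (360 * 2 ^ 26)) (by
    intro n X Y hg
    have hS := adm_of_gen hgeo hfive hg
    have hb := bound2 hpay hwalk hsound hkron hsum hsymd hsymkt hmin havg hS
    have hc : (acuteCount X Y : ℕ) = cnt3 (fun i j k => st X Y i j k = .a) := rfl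
    rw [hc]
    have hle := cnt3_le (fun i j k => st X Y i j k = St.a)
    set c := cnt3 (fun i j k => st X Y i j k = St.a) with hcdef
    rcases Nat.eq_zero_or_pos n with h0 | hpos
    · subst h0
      have : c = 0 := by simpa using hle
      rw [this]; simp
    · have hbR : (360 * 2 ^ 26 : ℝ) * ((n : ℝ) ^ 2 * ((n : ℝ) - 3) * c) ≤
          13475945715 * (n : ℝ) ^ 6 + 2 ^ 60 * (n : ℝ) ^ 5 := by exact_mod_cast hb
      have hleR : (c : ℝ) ≤ (n : ℝ) ^ 3 := by exact_mod_cast hle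
      have hn : (0 : ℝ) < n := by exact_mod_cast hpos
      have key : (360 * 2 ^ 26 : ℝ) * ((n : ℝ) ^ 3 * c) ≤
          13475945715 * (n : ℝ) ^ 6 + (2 ^ 60 + 3 * (360 * 2 ^ 26)) * (n : ℝ) ^ 5 := by
        nlinarith [mul_le_mul_of_nonneg_left hleR (by positivity : (0 : ℝ) ≤ (n : ℝ) ^ 2)]
      have h3 : (0 : ℝ) < (n : ℝ) ^ 3 := by positivity
      have : (n : ℝ) ^ 3 * c ≤ (n : ℝ) ^ 3 * (13475945715 / (360 * 2 ^ 26) * (n : ℝ) ^ 3 +
          (2 ^ 60 + 3 * (360 * 2 ^ 26)) / (360 * 2 ^ 26) * (n : ℝ) ^ 2) := by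
        have e : (n : ℝ) ^ 3 * (13475945715 / (360 * 2 ^ 26) * (n : ℝ) ^ 3 +
          (2 ^ 60 + 3 * (360 * 2 ^ 26)) / (360 * 2 ^ 26) * (n : ℝ) ^ 2) =
          (13475945715 * (n : ℝ) ^ 6 + (2 ^ 60 + 3 * (360 * 2 ^ 26)) * (n : ℝ) ^ 5) /
            (360 * 2 ^ 26) := by ring
        rw [e, le_div_iff₀ (by norm_num)]
        linarith [key]
      exact le_of_mul_le_mul_left this h3)
  refine ⟨L, h1, le_trans ?_ h2⟩
  norm_num

end Pool.Agent.Helper86.Ac
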