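import Pool.Agent.Helper86.Ac.Chk

/-! Kernel computation, part 0. -/

namespace Pool.Agent.Helper86.Ac

theorem rcddc : top .c .d .d .c = true := by decide +kernel

end Pool.Agent.Helper86.Ac
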