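import Pool.Agent.Helper86.Ac.Chk

/-! Kernel computation, part 15. -/

namespace Pool.Agent.Helper86.Ac

theorem raadd : top .a .a .d .d = true := by decide +kernel
theorem rabbb : top .a .b .b .b = true := by decide +kernel
theorem raddb : top .a .d .d .b = true := by decide +kernel
theorem rbaba : top .b .a .b .a = true := by decide +kernel
theorem rcaab : top .c .a .a .b = true := by decide +kernel
theorem rcadd : top .c .a .d .d = true := by decide +kernel
theorem rccdd : top .c .c .d .d = true := by decide +kernel
theorem rdaac : top .d .a .a .c = true := by decide +kernel
theorem rdbbb : top .d .b .b .b = true := by decide +kernel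
theorem rdbdc : top .d .b .d .c = true := by decide +kernel

end Pool.Agent.Helper86.Ac
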